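import Pool.Agent.PerSL2.Pm
import Pool.Agent.H10.PerSL.GadgetA

/-!
The core with one active selector on a diagonal.
-/

set_option autoImplicit false

namespace Pool.Agent.PerSL2

open Finset MvPolynomial
open scoped Nat
open Pool.Agent.H10.PerSL (es)
open Pool.Agent.H10.PerSL.Gad

universe u

theorem coeff_prodX_mul {σ : Type} [DecidableEq σ] {R : Type u} [CommRing R] (A : Finset σ) :
    ∀ (W : Finset σ) (F : MvPolynomial σ R), coeff (ind W) ((∏ i ∈ A, X i) * F) =
      if A ⊆ W then coeff (ind (W \ A)) F else 0 := by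
  induction A using Finset.induction_on with
  | empty => intro W F; simp
  | insert i A hi ih =>
    intro W F
    rw [prod_insert hi, mul_assoc, coeff_X_mul', ind_support]
    by_cases hiW : i ∈ W
    · rw [if_pos hiW, ind_sub W hiW, ih]
      by_cases hA : A ⊆ W
      · have h1 : A ⊆ W.erase i := fun x hx => mem_erase.2 ⟨fun h => hi (h ▸ hx), hA hx⟩
        have h2 : insert i A ⊆ W := insert_subset hiW hA
        rw [if_pos h1, if_pos h2]
        congr 2
        ext j
        simp only [mem_sdiff, mem_erase, mem_insert]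
        tauto
      · have h1 : ¬ A ⊆ W.erase i := fun h => hA (h.trans (erase_subset _ _))
        have h2 : ¬ insert i A ⊆ W := fun h => hA ((subset_insert _ _).trans h)
        rw [if_neg h1, if_neg h2]
    · have h2 : ¬ insert i A ⊆ W := fun h => hiW (h (mem_insert_self _ _))
      rw [if_neg hiW, if_neg h2]

/-- the last step: powers of the sums over two sets of variables -/
theorem coeff_two {σ : Type} [DecidableEq σ] {R : Type u} [CommRing R] (G B W : Finset σ)
    (n k : ℕ) (hG : G ⊆ W) (hGB : Disjoint G B) (hGk : G.card = k) :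
    coeff (ind W) ((∑ i ∈ G, (X i : MvPolynomial σ R)) ^ n * (∑ i ∈ B, X i) ^ k) =
      if n = k ∧ W ⊆ G ∪ B ∧ (W ∩ B).card = k then (k ! : R) ^ 2 else 0 := by
  have e0 : (∑ i ∈ B, (X i : MvPolynomial σ R)) ^ k = (∑ i ∈ B, X i) ^ k * 1 := by rw [mul_one]
  rw [e0, coeff_sumX_pow_mul]
  have h1 : ∀ T ∈ (W ∩ G).powersetCard n,
      coeff (ind (W \ T)) ((∑ i ∈ B, (X i : MvPolynomial σ R)) ^ k * 1) =
      if T = G ∧ W ⊆ G ∪ B ∧ (W ∩ B).card = k then (k ! : R) else 0 := by
    intro T hT
    have hTG : T ⊆ G := (mem_powersetCard.1 hT).1.trans inter_subset_right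
    rw [coeff_sumX_pow_mul]
    have e1 : (W \ T) ∩ B = W ∩ B := by
      ext j
      simp only [mem_inter, mem_sdiff]
      constructor
      · rintro ⟨⟨a, b⟩, c⟩; exact ⟨a, c⟩
      · rintro ⟨a, c⟩
        exact ⟨⟨a, fun h => (Finset.disjoint_left.1 hGB (hTG h)) c⟩, c⟩
    rw [e1]
    have h2 : ∀ T' ∈ (W ∩ B).powersetCard k,
        coeff (ind ((W \ T) \ T')) (1 : MvPolynomial σ R) =
        if T' = W ∩ B ∧ T = G ∧ W ⊆ G ∪ B then 1 else 0 := by
      intro T' hT'
      have hT'B : T' ⊆ W ∩ B := (mem_powersetCard.1 hT').1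
      rw [MvPolynomial.coeff_one]
      have h3 : (0 = (ind ((W \ T) \ T') : σ →₀ ℕ)) ↔ T' = W ∩ B ∧ T = G ∧ W ⊆ G ∪ B := by
        constructor
        · intro h
          have h4 : (W \ T) \ T' = ∅ := by
            have := congrArg Finsupp.support h
            rw [ind_support] at this
            simpa using this.symm
          have h5 : ∀ j ∈ W, j ∈ T ∨ j ∈ T' := by
            intro j hj
            by_contra hcon
            push Not at hcon
            have : j ∈ (W \ T) \ T' := by simp [hj, hcon.1, hcon.2]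
            rw [h4] at this
            exact absurd this (notMem_empty _)
          refine ⟨Subset.antisymm hT'B fun j hj => ?_, Subset.antisymm hTG fun j hj => ?_,
            fun j hj => ?_⟩
          · rcases h5 j (mem_inter.1 hj).1 with h6 | h6
            · exact absurd (mem_inter.1 hj).2 (Finset.disjoint_left.1 hGB (hTG h6))
            · exact h6
          · rcases h5 j (hG hj) with h6 | h6
            · exact h6
            · exact absurd (mem_inter.1 (hT'B h6)).2 (Finset.disjoint_left.1 hGB hj)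
          · rcases h5 j hj with h6 | h6
            · exact mem_union_left _ (hTG h6)
            · exact mem_union_right _ (mem_inter.1 (hT'B h6)).2
        · rintro ⟨rfl, rfl, h⟩
          have : (W \ T) \ (W ∩ B) = ∅ := by
            ext j
            simp only [mem_sdiff, mem_inter, notMem_empty, iff_false]
            rintro ⟨⟨a, b⟩, c⟩
            rcases mem_union.1 (h a) with h6 | h6
            · exact b h6
            · exact c ⟨a, h6⟩
          rw [this, ind_empty]
      simp only [h3]
    rw [Finset.sum_congr rfl h2]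
    by_cases hc : T = G ∧ W ⊆ G ∪ B ∧ (W ∩ B).card = k
    · obtain ⟨hc1, hc2, hc3⟩ := hc
      rw [if_pos ⟨hc1, hc2, hc3⟩]
      have hps : (W ∩ B).powersetCard k = {W ∩ B} := by
        rw [← hc3, powersetCard_self]
      rw [hps, sum_singleton, if_pos ⟨rfl, hc1, hc2⟩, mul_one]
    · rw [if_neg hc, Finset.sum_eq_zero, mul_zero]
      intro T' hT'
      rw [if_neg]
      rintro ⟨a, b, c⟩
      apply hc
      refine ⟨b, c, ?_⟩
      rw [← a]
      exact (mem_powersetCard.1 hT').2
  rw [Finset.sum_congr rfl h1, inter_eq_right.2 hG]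
  by_cases hc : n = k ∧ W ⊆ G ∪ B ∧ (W ∩ B).card = k
  · obtain ⟨hc1, hc2, hc3⟩ := hc
    rw [if_pos ⟨hc1, hc2, hc3⟩]
    subst hc1
    have hps : G.powersetCard n = {G} := by
      conv_lhs => rw [← hGk]
      rw [powersetCard_self]
    rw [hps, sum_singleton, if_pos ⟨rfl, hc2, hc3⟩, sq]
  · rw [if_neg hc, Finset.sum_eq_zero, mul_zero]
    intro T hT
    rw [if_neg]
    rintro ⟨a, b, c⟩
    apply hc
    refine ⟨?_, b, c⟩
    rw [← (mem_powersetCard.1 hT).2, a, hGk]

section diag

variable {R : Type u} [CommRing R] {I J : Type} [Fintype I] [DecidableEq I] [Fintype J]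
  [DecidableEq J]

/-- sums over subsets of `J` which vanish outside the image of `f` -/
theorem sum_image_powerset {M : Type u} [AddCommMonoid M] (f : I → J)
    (hf : Function.Injective f) (g : Finset J → M)
    (hg : ∀ P, (∃ c ∈ P, c ∉ Set.range f) → g P = 0) :
    ∑ P ∈ (univ : Finset J).powerset, g P =
      ∑ S ∈ (univ : Finset I).powerset, g (S.image f) := by
  symm
  refine Finset.sum_of_injOn (fun S => S.image f) ?_ ?_ ?_ ?_
  · intro S _ S' _ h
    exact Finset.image_injective hf h
  · intro S _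
    simp
  · intro P _ hP
    apply hg
    by_contra hcon
    push Not at hcon
    apply hP
    refine ⟨univ.filter (fun i => f i ∈ P), by simp, ?_⟩
    ext c
    simp only [mem_image, mem_filter, mem_univ, true_and]
    constructor
    · rintro ⟨i, hi, rfl⟩
      exact hi
    · intro hc
      obtain ⟨i, hi⟩ := hcon c hc
      exact ⟨i, by rw [hi]; exact hc, hi⟩
  · intro S _
    rfl

theorem pm_diag (f : I → J) (hf : Function.Injective f) (y : I → R) (k : ℕ) :
    pm (one k (fun i c => if c = f i then y i else 0) (fun _ => 1) (fun _ => 1)) =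
      (k ! : R) ^ 2 * es univ k y := by
  set A : (I ⊕ J) ⊕ Fin k → (J ⊕ I) ⊕ Fin k → R :=
    one k (fun i c => if c = f i then y i else 0) (fun _ => 1) (fun _ => 1) with hA
  set eI : I → (I ⊕ J) ⊕ Fin k := fun i => Sum.inl (Sum.inl i) with heI
  set eJ : J → (I ⊕ J) ⊕ Fin k := fun c => Sum.inl (Sum.inr c) with heJ
  have hIinj : Function.Injective eI := fun a b h => Sum.inl_injective (Sum.inl_injective h)
  have hJinj : Function.Injective eJ := fun a b h => Sum.inr_injective (Sum.inl_injective h)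
  set G : Finset ((I ⊕ J) ⊕ Fin k) := univ.image Sum.inr with hG
  set B : Finset ((I ⊕ J) ⊕ Fin k) := univ.image eJ with hB
  set z : J → MvPolynomial ((I ⊕ J) ⊕ Fin k) R :=
    fun c => ∑ i, C (if c = f i then y i else 0) * X (eI i) with hz
  have hχ : ∑ r ∈ G, (X r : MvPolynomial ((I ⊕ J) ⊕ Fin k) R) = ∑ v, X (Sum.inr v) := by
    rw [hG, sum_image (fun _ _ _ _ h => Sum.inr_injective h)]
  have hβ : ∑ r ∈ B, (X r : MvPolynomial ((I ⊕ J) ⊕ Fin k) R) = ∑ c, X (eJ c) := by
    rw [hB, sum_image (fun _ _ _ _ h => hJinj h)]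
  have hGc : G.card = k := by
    rw [hG, card_image_of_injective _ Sum.inr_injective, card_univ, Fintype.card_fin]
  have hGB : Disjoint G B := by
    rw [Finset.disjoint_left]
    intro r hr hr'
    simp only [hG, hB, mem_image, mem_univ, true_and, heJ] at hr hr'
    obtain ⟨v, rfl⟩ := hr
    obtain ⟨c, hc⟩ := hr'
    exact absurd hc (by simp)
  -- the columns
  have hc1 : ∀ c : J, ∑ r, C (A r (Sum.inl (Sum.inl c))) *
      (X r : MvPolynomial ((I ⊕ J) ⊕ Fin k) R) = z c + X (eJ c) := by
    intro c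
    rw [Fintype.sum_sum_type, Fintype.sum_sum_type]
    have e1 : ∑ v : Fin k, C (A (Sum.inr v) (Sum.inl (Sum.inl c))) *
        (X (Sum.inr v) : MvPolynomial ((I ⊕ J) ⊕ Fin k) R) = 0 :=
      Finset.sum_eq_zero fun v _ => by simp [hA, one, coreA]
    have e2 : ∑ c' : J, C (A (Sum.inl (Sum.inr c')) (Sum.inl (Sum.inl c))) *
        (X (Sum.inl (Sum.inr c')) : MvPolynomial ((I ⊕ J) ⊕ Fin k) R) = X (eJ c) := by
      rw [Finset.sum_eq_single c]
      · simp [hA, one, coreW, heJ]
      · intro c' _ hc'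
        simp [hA, one, coreW, hc']
      · simp
    rw [e1, e2, add_zero]
    rfl
  have hc2 : ∀ i : I, ∑ r, C (A r (Sum.inl (Sum.inr i))) *
      (X r : MvPolynomial ((I ⊕ J) ⊕ Fin k) R) = X (eI i) + ∑ r ∈ G, X r := by
    intro i
    rw [hχ, Fintype.sum_sum_type, Fintype.sum_sum_type]
    have e1 : ∑ v : Fin k, C (A (Sum.inr v) (Sum.inl (Sum.inr i))) *
        (X (Sum.inr v) : MvPolynomial ((I ⊕ J) ⊕ Fin k) R) = ∑ v, X (Sum.inr v) :=
      Finset.sum_congr rfl fun v _ => by simp [hA, one, coreA]
    have e2 : ∑ c' : J, C (A (Sum.inl (Sum.inr c')) (Sum.inl (Sum.inr i))) *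
        (X (Sum.inl (Sum.inr c')) : MvPolynomial ((I ⊕ J) ⊕ Fin k) R) = 0 :=
      Finset.sum_eq_zero fun v _ => by simp [hA, one, coreW]
    have e3 : ∑ i' : I, C (A (Sum.inl (Sum.inl i')) (Sum.inl (Sum.inr i))) *
        (X (Sum.inl (Sum.inl i')) : MvPolynomial ((I ⊕ J) ⊕ Fin k) R) = X (eI i) := by
      rw [Finset.sum_eq_single i]
      · simp [hA, one, coreW, heI]
      · intro c' _ hc'
        simp [hA, one, coreW, hc']
      · simp
    rw [e1, e2, e3, add_zero]
  have hc3 : ∀ v : Fin k, ∑ r, C (A r (Sum.inr v)) *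
      (X r : MvPolynomial ((I ⊕ J) ⊕ Fin k) R) = ∑ r ∈ B, X r := by
    intro v
    rw [hβ, Fintype.sum_sum_type, Fintype.sum_sum_type]
    have e1 : ∑ v' : Fin k, C (A (Sum.inr v') (Sum.inr v)) *
        (X (Sum.inr v') : MvPolynomial ((I ⊕ J) ⊕ Fin k) R) = 0 :=
      Finset.sum_eq_zero fun v _ => by simp [hA, one]
    have e2 : ∑ c' : J, C (A (Sum.inl (Sum.inr c')) (Sum.inr v)) *
        (X (Sum.inl (Sum.inr c')) : MvPolynomial ((I ⊕ J) ⊕ Fin k) R) = ∑ c, X (eJ c) :=
      Finset.sum_congr rfl fun v _ => by simp [hA, one, coreB, heJ]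
    have e3 : ∑ i' : I, C (A (Sum.inl (Sum.inl i')) (Sum.inr v)) *
        (X (Sum.inl (Sum.inl i')) : MvPolynomial ((I ⊕ J) ⊕ Fin k) R) = 0 :=
      Finset.sum_eq_zero fun v _ => by simp [hA, one, coreB]
    rw [e1, e2, e3, add_zero, zero_add]
  have hzf : ∀ i, z (f i) = C (y i) * X (eI i) := by
    intro i
    rw [hz]
    simp only
    rw [Finset.sum_eq_single i]
    · rw [if_pos rfl]
    · intro i' _ hi'
      rw [if_neg (fun h => hi' (hf h).symm)]
      simp
    · simp
  have hz0 : ∀ c, c ∉ Set.range f → z c = 0 := by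
    intro c hc
    rw [hz]
    refine Finset.sum_eq_zero fun i _ => ?_
    rw [if_neg (fun h => hc ⟨i, h.symm⟩)]
    simp
  have h0 : pm A = coeff (ind univ) ((∏ c, (z c + X (eJ c))) *
      ((∏ i, (X (eI i) + ∑ r ∈ G, X r)) * (∑ r ∈ B, X r) ^ k)) := by
    unfold pm
    rw [perm_coeff, Fintype.prod_sum_type, Fintype.prod_sum_type]
    simp only [hc1, hc2, hc3]
    rw [prod_const, card_univ, Fintype.card_fin, mul_assoc]
  rw [h0, Finset.prod_add, Finset.sum_mul, coeff_sum]
  rw [sum_image_powerset f hf _ (by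
    rintro P ⟨c, hcP, hc⟩
    rw [prod_eq_zero hcP (hz0 c hc)]
    simp)]
  have hkey : ∀ S S₂ : Finset I, coeff (ind univ)
      ((∏ r ∈ S.image eI, X r) * ((∏ r ∈ (univ \ S.image f).image eJ, X r) *
        ((∏ r ∈ S₂.image eI, X r) * ((∑ r ∈ G, (X r : MvPolynomial ((I ⊕ J) ⊕ Fin k) R)) ^
          (univ \ S₂).card * (∑ r ∈ B, X r) ^ k)))) =
      if S₂ = univ \ S ∧ S.card = k then (k ! : R) ^ 2 else 0 := by
    intro S S₂
    have d1 : (univ \ S.image f).image eJ ⊆ univ \ S.image eI := by
      intro r hr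
      rw [mem_image] at hr
      obtain ⟨c, -, rfl⟩ := hr
      simp [heI, heJ]
    rw [coeff_prodX_mul, if_pos (subset_univ _), coeff_prodX_mul, if_pos d1, coeff_prodX_mul]
    by_cases hd : S₂.image eI ⊆ (univ \ S.image eI) \ (univ \ S.image f).image eJ
    · rw [if_pos hd]
      have hdis : ∀ i ∈ S₂, i ∉ S := by
        intro i hi hiS
        have := hd (mem_image_of_mem eI hi)
        rw [mem_sdiff, mem_sdiff] at this
        exact this.1.2 (mem_image_of_mem eI hiS)
      have hGW : G ⊆ ((univ \ S.image eI) \ (univ \ S.image f).image eJ) \ S₂.image eI := by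
        intro r hr
        simp only [hG, mem_image, mem_univ, true_and] at hr
        obtain ⟨v, rfl⟩ := hr
        simp [heI, heJ]
      rw [coeff_two G B _ _ k hGW hGB hGc]
      have hWB : (((univ \ S.image eI) \ (univ \ S.image f).image eJ) \ S₂.image eI) ∩ B =
          (S.image f).image eJ := by
        ext r
        simp only [hB, mem_inter, mem_sdiff, mem_image, mem_univ, true_and]
        constructor
        · rintro ⟨⟨⟨-, h1⟩, -⟩, c, rfl⟩
          refine ⟨c, ?_, rfl⟩
          by_contra hcon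
          exact h1 ⟨c, hcon, rfl⟩
        · rintro ⟨c, ⟨i, hi, rfl⟩, rfl⟩
          refine ⟨⟨⟨?_, ?_⟩, ?_⟩, f i, rfl⟩
          · rintro ⟨j, -, h⟩
            simp [heI, heJ] at h
          · rintro ⟨c', h1, h2⟩
            have := hJinj h2
            subst this
            exact h1 ⟨i, hi, rfl⟩
          · rintro ⟨j, -, h⟩
            simp [heI, heJ] at h
      have hcard : ((S.image f).image eJ).card = S.card := by
        rw [card_image_of_injective _ hJinj, card_image_of_injective _ hf]
      have hsub : (((univ \ S.image eI) \ (univ \ S.image f).image eJ) \ S₂.image eI) ⊆ G ∪ B ↔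
          S₂ = univ \ S := by
        constructor
        · intro h
          ext i
          rw [mem_sdiff]
          constructor
          · intro hi
            exact ⟨mem_univ _, hdis i hi⟩
          · rintro ⟨-, hi⟩
            by_contra hcon
            have h1 : eI i ∈ (((univ \ S.image eI) \ (univ \ S.image f).image eJ) \
                S₂.image eI) := by
              simp only [mem_sdiff, mem_image, mem_univ, true_and]
              refine ⟨⟨?_, ?_⟩, ?_⟩
              · rintro ⟨j, hj, h2⟩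
                exact hi (hIinj h2 ▸ hj)
              · rintro ⟨j, -, h2⟩
                simp [heI, heJ] at h2
              · rintro ⟨j, hj, h2⟩
                exact hcon (hIinj h2 ▸ hj)
            have h2 := h h1
            simp [hG, hB, heI, heJ] at h2
        · intro h r hr
          rcases r with (i | c) | v
          · exfalso
            simp only [mem_sdiff, mem_image, mem_univ, true_and] at hr
            by_cases hi : i ∈ S
            · exact hr.1.1 ⟨i, hi, rfl⟩
            · exact hr.2 ⟨i, by rw [h]; simp [hi], rfl⟩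
          · exact mem_union_right _ (mem_image_of_mem eJ (mem_univ c))
          · exact mem_union_left _ (mem_image_of_mem Sum.inr (mem_univ v))
      rw [hWB, hcard]
      by_cases hc : S₂ = univ \ S ∧ S.card = k
      · rw [if_pos hc, if_pos]
        refine ⟨?_, hsub.2 hc.1, hc.2⟩
        rw [hc.1, sdiff_sdiff_right_self]
        simpa using hc.2
      · rw [if_neg hc, if_neg]
        rintro ⟨-, h1, h2⟩
        exact hc ⟨hsub.1 h1, h2⟩
    · rw [if_neg hd, if_neg]
      rintro ⟨h, -⟩
      apply hd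
      intro r hr
      rw [mem_image] at hr
      obtain ⟨i, hi, rfl⟩ := hr
      simp only [mem_sdiff, mem_image, mem_univ, true_and]
      refine ⟨?_, ?_⟩
      · rintro ⟨j, hj, h2⟩
        have h3 := hIinj h2
        subst h3
        rw [h, mem_sdiff] at hi
        exact hi.2 hj
      · rintro ⟨j, -, h2⟩
        simp [heI, heJ] at h2
  have hterm : ∀ S : Finset I, coeff (ind univ)
      (((∏ c ∈ S.image f, z c) * ∏ c ∈ univ \ S.image f, X (eJ c)) *
        ((∏ i, (X (eI i) + ∑ r ∈ G, X r)) * (∑ r ∈ B, X r) ^ k)) =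
      if S.card = k then (k ! : R) ^ 2 * ∏ i ∈ S, y i else 0 := by
    intro S
    have f1 : ∏ c ∈ S.image f, z c = C (∏ i ∈ S, y i) * ∏ r ∈ S.image eI, X r := by
      rw [prod_image (fun _ _ _ _ h => hf h), prod_image (fun _ _ _ _ h => hIinj h), map_prod,
        ← prod_mul_distrib]
      exact prod_congr rfl fun i _ => hzf i
    have f2 : ∏ c ∈ univ \ S.image f, (X (eJ c) : MvPolynomial ((I ⊕ J) ⊕ Fin k) R) =
        ∏ r ∈ (univ \ S.image f).image eJ, X r := by
      rw [prod_image (fun _ _ _ _ h => hJinj h)]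
    have f3 : ∏ i, ((X (eI i) : MvPolynomial ((I ⊕ J) ⊕ Fin k) R) + ∑ r ∈ G, X r) =
        ∑ S₂ ∈ (univ : Finset I).powerset, (∏ r ∈ S₂.image eI, X r) *
          (∑ r ∈ G, X r) ^ (univ \ S₂).card := by
      rw [Finset.prod_add]
      refine sum_congr rfl fun S₂ _ => ?_
      rw [prod_image (fun _ _ _ _ h => hIinj h), prod_const]
    rw [f1, f2, f3]
    have f4 : C (∏ i ∈ S, y i) * (∏ r ∈ S.image eI, X r) *
          (∏ r ∈ (univ \ S.image f).image eJ, X r) *
        ((∑ S₂ ∈ (univ : Finset I).powerset, (∏ r ∈ S₂.image eI, X r) *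
          (∑ r ∈ G, (X r : MvPolynomial ((I ⊕ J) ⊕ Fin k) R)) ^ (univ \ S₂).card) *
            (∑ r ∈ B, X r) ^ k) =
        C (∏ i ∈ S, y i) * ∑ S₂ ∈ (univ : Finset I).powerset,
          ((∏ r ∈ S.image eI, X r) * ((∏ r ∈ (univ \ S.image f).image eJ, X r) *
        ((∏ r ∈ S₂.image eI, X r) * ((∑ r ∈ G, (X r : MvPolynomial ((I ⊕ J) ⊕ Fin k) R)) ^
          (univ \ S₂).card * (∑ r ∈ B, X r) ^ k)))) := by
      rw [Finset.sum_mul, Finset.mul_sum, Finset.mul_sum]
      refine sum_congr rfl fun S₂ _ => ?_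
      ring
    rw [f4, coeff_C_mul, coeff_sum, Finset.sum_congr rfl fun S₂ _ => hkey S S₂]
    by_cases hc : S.card = k
    · rw [if_pos hc]
      simp only [hc, and_true]
      rw [Finset.sum_ite_eq' (univ : Finset I).powerset (univ \ S), if_pos (by simp), mul_comm]
    · rw [if_neg hc, Finset.sum_eq_zero, mul_zero]
      intro S₂ _
      rw [if_neg (fun h => hc h.2)]
  rw [Finset.sum_congr rfl fun S _ => hterm S, ← Finset.sum_filter]
  unfold es
  rw [Finset.mul_sum]
  refine Finset.sum_congr ?_ fun _ _ => rfl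
  ext S
  simp

end diag

end Pool.Agent.PerSL2
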