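import Pool.Agent.PerSL2.Pm
import Pool.Agent.PerSL2.Diag

/-!
# Module M6: isolating one diagonal
-/

set_option autoImplicit false

namespace Pool.Agent.PerSL2.IsoM

open Finset MvPolynomial Pool.Agent.PerSL2
open scoped Nat
open Pool.Agent.H10.PerSL (es)

universe u

section
variable {R : Type u} [CommRing R] {I J : Type} [Fintype I] [DecidableEq I] [Fintype J]
  [DecidableEq J]

/-- moving the selector weights into the core -/
theorem one_scale [IsDomain R] (k : ℕ) (W : I → J → R) (a : I → R) (b : J → R)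
    (ha : ∀ i, a i ≠ 0) (hb : ∀ c, b c ≠ 0) :
    pm (one k W a b) = pm (one k (fun i c => a i * W i c * b c) (fun _ => 1) (fun _ => 1)) := by
  have h1 := pm_scale (one k W a b)
    (Sum.elim (Sum.elim a (fun _ => 1)) (fun _ => 1))
    (Sum.elim (Sum.elim b (fun _ => 1)) (fun _ => 1))
  have h2 := pm_scale (one k (fun i c => a i * W i c * b c) (fun _ => 1) (fun _ => 1))
    (Sum.elim (Sum.elim (fun _ => 1) b) (fun _ => 1))
    (Sum.elim (Sum.elim (fun _ => 1) a) (fun _ => 1))
  have h3 : (fun (r : (I ⊕ J) ⊕ Fin k) (c : (J ⊕ I) ⊕ Fin k) =>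
      (Sum.elim (Sum.elim a (fun _ => 1)) (fun _ => 1) : (I ⊕ J) ⊕ Fin k → R) r *
        one k W a b r c *
        (Sum.elim (Sum.elim b (fun _ => 1)) (fun _ => 1) : (J ⊕ I) ⊕ Fin k → R) c) =
      (fun (r : (I ⊕ J) ⊕ Fin k) (c : (J ⊕ I) ⊕ Fin k) =>
      (Sum.elim (Sum.elim (fun _ => 1) b) (fun _ => 1) : (I ⊕ J) ⊕ Fin k → R) r *
        one k (fun i c => a i * W i c * b c) (fun _ => 1) (fun _ => 1) r c *
        (Sum.elim (Sum.elim (fun _ => 1) a) (fun _ => 1) : (J ⊕ I) ⊕ Fin k → R) c) := by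
    funext r c
    rcases r with (i | j) | v <;> rcases c with (j' | i') | v' <;>
      simp [one, coreW, coreA, coreB]
    · by_cases h : i = i'
      · subst h; simp
      · simp [h]
    · by_cases h : j = j'
      · subst h; simp
      · simp [h]
  rw [h3, h2] at h1
  simp only [Fintype.prod_sum_type, Sum.elim_inl, Sum.elim_inr, prod_const_one, one_mul,
    mul_one] at h1
  have hA : (∏ i, a i) ≠ 0 := prod_ne_zero_iff.2 fun i _ => ha i
  have hB : (∏ c, b c) ≠ 0 := prod_ne_zero_iff.2 fun i _ => hb i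
  have h4 : ((∏ i, a i) * ∏ c, b c) * pm (one k W a b) = ((∏ i, a i) * ∏ c, b c) *
      pm (one k (fun i c => a i * W i c * b c) (fun _ => 1) (fun _ => 1)) := by
    rw [← h1]; ring
  exact mul_left_cancel₀ (mul_ne_zero hA hB) h4

/-- the power of a common factor -/
theorem one_smul' [IsDomain R] (k : ℕ) (θ : R) (hθ : θ ≠ 0) (W : I → J → R) :
    pm (one k (fun i c => θ * W i c) (fun _ => 1) (fun _ => 1)) =
      θ ^ k * pm (one k W (fun _ => 1) (fun _ => 1)) := by
  have h1 := pm_scale (one k W (fun _ => (1 : R)) (fun _ => 1))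
    (Sum.elim (Sum.elim (fun _ => θ) (fun _ => 1)) (fun _ => θ)) (fun _ => 1)
  have h2 := pm_scale (one k (fun i c => θ * W i c) (fun _ => (1 : R)) (fun _ => 1))
    (fun _ => 1) (Sum.elim (Sum.elim (fun _ => 1) (fun _ => θ)) (fun _ => 1))
  have h3 : (fun (r : (I ⊕ J) ⊕ Fin k) (c : (J ⊕ I) ⊕ Fin k) =>
      (Sum.elim (Sum.elim (fun _ => θ) (fun _ => 1)) (fun _ => θ) : (I ⊕ J) ⊕ Fin k → R) r *
        one k W (fun _ => (1 : R)) (fun _ => 1) r c * 1) =
      (fun (r : (I ⊕ J) ⊕ Fin k) (c : (J ⊕ I) ⊕ Fin k) => 1 *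
        one k (fun i c => θ * W i c) (fun _ => 1) (fun _ => 1) r c *
        (Sum.elim (Sum.elim (fun _ => 1) (fun _ => θ)) (fun _ => 1) :
          (J ⊕ I) ⊕ Fin k → R) c) := by
    funext r c
    rcases r with (i | j) | v <;> rcases c with (j' | i') | v' <;>
      simp [one, coreW, coreA, coreB]
  rw [h3, h2] at h1
  simp only [Fintype.prod_sum_type, Sum.elim_inl, Sum.elim_inr, prod_const_one, one_mul,
    mul_one, prod_const, card_univ, Fintype.card_fin] at h1
  have h4 : θ ^ Fintype.card I *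
      pm (one k (fun i c => θ * W i c) (fun _ => 1) (fun _ => 1)) = θ ^ Fintype.card I *
      (θ ^ k * pm (one k W (fun _ => 1) (fun _ => 1))) := by
    rw [h1]; ring
  exact mul_left_cancel₀ (pow_ne_zero _ hθ) h4

end

theorem one_mod {R : Type u} [CommRing R] {I J : Type} [Fintype I] [DecidableEq I] [Fintype J]
    [DecidableEq J] (k : ℕ) (t : R) (W W' : I → J → R)
    (h : ∀ i c, ∃ z, W i c = W' i c + t * z) :
    ∃ Z, pm (one k W (fun _ => 1) (fun _ => 1)) =
      pm (one k W' (fun _ => 1) (fun _ => 1)) + t * Z := by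
  apply pm_mod
  intro r c
  rcases r with (i | j) | v <;> rcases c with (j' | i') | v' <;>
    first
      | exact h _ _
      | exact ⟨0, by simp [one, coreW, coreA, coreB]⟩

end Pool.Agent.PerSL2.IsoM

namespace Pool.Agent.PerSL2

open Finset MvPolynomial
open scoped Nat
open Pool.Agent.H10.PerSL (es)

universe u

theorem iso {R : Type u} [CommRing R] [IsDomain R] {m τ : ℕ} (k : ℕ) (t : R) (ht : t ≠ 0)
    (B : ℕ) (hB : 2 * τ * (m + τ) ≤ B) (y : Fin m → Fin τ → R) (q : Fin τ) :
    ∃ Z : R, pm (one k (wy t y) (fun i => t ^ ((q : ℕ) ^ 2 + 2 * q * i))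
        (fun c => t ^ (B - 2 * q * c))) =
      t ^ (k * B) * ((k ! : R) ^ 2 * es univ k (fun i => y i q)) + t ^ (k * B + 1) * Z := by
  -- the core after moving the weights
  let W2 : Fin m → Fin (m + τ) → R := fun i c =>
    if h : (i : ℕ) ≤ c ∧ (c : ℕ) - i < τ then
      t ^ ((((c : ℕ) - i) - q) ^ 2 + ((q : ℕ) - ((c : ℕ) - i)) ^ 2) * y i ⟨(c : ℕ) - i, h.2⟩
      else 0
  let f : Fin m → Fin (m + τ) := fun i => ⟨i + q, by have := i.2; have := q.2; omega⟩
  have hf : Function.Injective f := by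
    intro i j hij
    have := congrArg Fin.val hij
    simp only [f] at this
    exact Fin.ext (by omega)
  have hW2 : ∀ (i : Fin m) (c : Fin (m + τ)),
      t ^ ((q : ℕ) ^ 2 + 2 * q * i) * wy t y i c * t ^ (B - 2 * q * c) = t ^ B * W2 i c := by
    intro i c
    simp only [wy, W2]
    split_ifs with h
    · have hc : (2 : ℕ) * q * c ≤ B := by
        refine le_trans ?_ hB
        have h1 := q.2
        have h2 := c.2
        have h3 : (q : ℕ) * c ≤ τ * (m + τ) := Nat.mul_le_mul h1.le h2.le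
        nlinarith
      obtain ⟨p, hp⟩ : ∃ p : ℕ, p = (c : ℕ) - i := ⟨_, rfl⟩
      have hcp : (c : ℕ) = i + p := by omega
      have key : (q : ℕ) ^ 2 + 2 * q * i + p ^ 2 + (B - 2 * q * c) =
          B + ((p - (q : ℕ)) ^ 2 + ((q : ℕ) - p) ^ 2) := by
        rcases le_total p (q : ℕ) with hpq | hpq
        · obtain ⟨e, he⟩ := Nat.exists_eq_add_of_le hpq
          have h0 : p - (q : ℕ) = 0 := by omega
          have h1 : (q : ℕ) - p = e := by omega
          rw [h0, h1]
          obtain ⟨b, hb⟩ := Nat.exists_eq_add_of_le hc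
          have h2 : B - 2 * q * c = b := by omega
          rw [h2, hb, hcp, he]
          ring
        · obtain ⟨e, he⟩ := Nat.exists_eq_add_of_le hpq
          have h0 : p - (q : ℕ) = e := by omega
          have h1 : (q : ℕ) - p = 0 := by omega
          rw [h0, h1]
          obtain ⟨b, hb⟩ := Nat.exists_eq_add_of_le hc
          have h2 : B - 2 * q * c = b := by omega
          rw [h2, hb, hcp, he]
          ring
      rw [hp] at key
      calc t ^ ((q : ℕ) ^ 2 + 2 * q * i) * (t ^ ((c : ℕ) - i) ^ 2 * y i ⟨(c : ℕ) - i, h.2⟩) *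
            t ^ (B - 2 * q * c)
          = t ^ ((q : ℕ) ^ 2 + 2 * q * i + ((c : ℕ) - i) ^ 2 + (B - 2 * q * c)) *
            y i ⟨(c : ℕ) - i, h.2⟩ := by
            rw [pow_add _ _ (B - 2 * q * c), pow_add _ _ (((c : ℕ) - i) ^ 2)]; ring
        _ = _ := by rw [key, pow_add]; ring
    · simp
  have hmod : ∀ (i : Fin m) (c : Fin (m + τ)), ∃ z,
      W2 i c = (if c = f i then y i q else 0) + t * z := by
    intro i c
    simp only [W2]
    split_ifs with h h' h'
    · refine ⟨0, ?_⟩
      have hc : (c : ℕ) = i + q := by rw [h']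
      have hq : (⟨(c : ℕ) - i, h.2⟩ : Fin τ) = q := Fin.ext (by simp only; omega)
      have h0 : (c : ℕ) - i - q = 0 := by omega
      have h1 : (q : ℕ) - (c - i) = 0 := by omega
      rw [hq, h0, h1]
      simp
    · have hne : (c : ℕ) - i ≠ q := by
        intro hh
        apply h'
        apply Fin.ext
        simp only [f]
        omega
      have hpos : 0 < (((c : ℕ) - i) - q) ^ 2 + ((q : ℕ) - ((c : ℕ) - i)) ^ 2 := by
        rcases lt_or_gt_of_ne hne with h1 | h1
        · have : 0 < (q : ℕ) - ((c : ℕ) - i) := by omega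
          positivity
        · have : 0 < ((c : ℕ) - i) - q := by omega
          positivity
      obtain ⟨e, he⟩ := Nat.exists_eq_succ_of_ne_zero hpos.ne'
      refine ⟨t ^ e * y i ⟨(c : ℕ) - i, h.2⟩, ?_⟩
      rw [he, pow_succ]
      ring
    · exfalso
      apply h
      have hc : (c : ℕ) = i + q := by rw [h']
      have := q.2
      omega
    · exact ⟨0, by simp⟩
  rw [IsoM.one_scale k _ _ _ (fun i => pow_ne_zero _ ht) (fun c => pow_ne_zero _ ht)]
  simp only [hW2]
  rw [IsoM.one_smul' k (t ^ B) (pow_ne_zero _ ht)]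
  obtain ⟨Z, hZ⟩ := IsoM.one_mod k t W2 _ hmod
  refine ⟨Z, ?_⟩
  rw [hZ, pm_diag f hf (fun i => y i q) k, ← pow_mul]
  ring

end Pool.Agent.PerSL2
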