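import Pool.Agent.PerSL2.Defs

/-!
Elementary facts on `pm`.
-/

set_option autoImplicit false

namespace Pool.Agent.PerSL2

open Finset
open scoped Nat

universe u

section pm

variable {ρ κ ρ' κ' ρ₁ ρ₂ κ₁ κ₂ : Type} [Fintype ρ] [DecidableEq ρ] [Fintype κ] [DecidableEq κ]
  [Fintype ρ'] [DecidableEq ρ'] [Fintype κ'] [DecidableEq κ'] [Fintype ρ₁] [DecidableEq ρ₁]
  [Fintype κ₁] [DecidableEq κ₁] [Fintype ρ₂] [DecidableEq ρ₂] [Fintype κ₂] [DecidableEq κ₂]
  {R : Type u} [CommRing R]

theorem pm_transpose (A : ρ → κ → R) : pm (fun (c : κ) (r : ρ) => A r c) = pm A := by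
  unfold pm
  refine Fintype.sum_bijective Equiv.symm Equiv.symm_bijective _ _ fun σ => ?_
  refine Fintype.prod_equiv σ _ _ fun r => ?_
  rw [Equiv.symm_apply_apply]

theorem pm_scale (A : ρ → κ → R) (a : ρ → R) (b : κ → R) :
    pm (fun r c => a r * A r c * b c) = (∏ r, a r) * (∏ c, b c) * pm A := by
  unfold pm
  rw [Finset.mul_sum]
  refine Finset.sum_congr rfl fun σ _ => ?_
  rw [Finset.prod_mul_distrib, Finset.prod_mul_distrib, Equiv.prod_comp σ a]
  ring

theorem pm_map {S : Type u} [CommRing S] (f : R →+* S) (A : ρ → κ → R) :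
    f (pm A) = pm (fun r c => f (A r c)) := by
  unfold pm
  rw [map_sum]
  refine Finset.sum_congr rfl fun σ _ => ?_
  rw [map_prod]

theorem pm_reindex (eR : ρ' ≃ ρ) (eC : κ' ≃ κ) (A : ρ → κ → R) :
    pm (fun r c => A (eR r) (eC c)) = pm A := by
  unfold pm
  refine Fintype.sum_equiv (Equiv.equivCongr eC eR) _ _ fun σ => ?_
  refine Fintype.prod_equiv eC _ _ fun c => ?_
  simp [Equiv.equivCongr]

theorem pm_mod (t : R) (A B : ρ → κ → R) (h : ∀ r c, ∃ z, A r c = B r c + t * z) :
    ∃ Z, pm A = pm B + t * Z := by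
  have h1 : Ideal.Quotient.mk (Ideal.span {t}) (pm A) =
      Ideal.Quotient.mk (Ideal.span {t}) (pm B) := by
    rw [pm_map, pm_map]
    congr 1
    funext r c
    obtain ⟨z, hz⟩ := h r c
    rw [Ideal.Quotient.eq, hz, add_sub_cancel_left]
    exact Ideal.mul_mem_right _ _ (Ideal.mem_span_singleton_self t)
  rw [Ideal.Quotient.eq, Ideal.mem_span_singleton'] at h1
  obtain ⟨Z, hZ⟩ := h1
  exact ⟨Z, by linear_combination -hZ⟩

theorem pm_block (A : ρ₁ ⊕ ρ₂ → κ₁ ⊕ κ₂ → R) (h : Fintype.card ρ₁ = Fintype.card κ₁)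
    (h0 : ∀ r c, A (Sum.inr r) (Sum.inl c) = 0) :
    pm A = pm (fun r c => A (Sum.inl r) (Sum.inl c)) *
      pm (fun r c => A (Sum.inr r) (Sum.inr c)) := by
  unfold pm
  rw [Finset.sum_mul_sum, ← Finset.sum_product']
  symm
  refine Finset.sum_of_injOn (fun p : (κ₁ ≃ ρ₁) × (κ₂ ≃ ρ₂) => Equiv.sumCongr p.1 p.2)
    ?_ ?_ ?_ ?_
  · rintro ⟨a, b⟩ _ ⟨a', b'⟩ _ hab
    have h1 : ∀ c, (Equiv.sumCongr a b) c = (Equiv.sumCongr a' b') c := fun c => by
      have := congrArg (fun e : κ₁ ⊕ κ₂ ≃ ρ₁ ⊕ ρ₂ => e c) hab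
      exact this
    refine Prod.ext ?_ ?_
    · ext c
      have := h1 (Sum.inl c)
      simpa using this
    · ext c
      have := h1 (Sum.inr c)
      simpa using this
  · intro x _
    exact Finset.mem_coe.2 (Finset.mem_univ _)
  · intro σ _ hσ
    by_contra hne
    have hne' : ∀ c, A (σ c) c ≠ 0 := fun c hc =>
      hne (Finset.prod_eq_zero (Finset.mem_univ c) hc)
    have h1 : ∀ c : κ₁, ∃ r : ρ₁, σ (Sum.inl c) = Sum.inl r := by
      intro c
      rcases hr : σ (Sum.inl c) with r | r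
      · exact ⟨r, rfl⟩
      · exact absurd (h0 r c) (by rw [← hr]; exact hne' _)
    choose f hf using h1
    have hfi : Function.Injective f := fun c c' hcc => by
      have := hf c
      rw [hcc, ← hf c'] at this
      exact Sum.inl_injective (σ.injective this)
    have hfb : Function.Bijective f :=
      (Fintype.bijective_iff_injective_and_card f).2 ⟨hfi, h.symm⟩
    have h2 : ∀ c : κ₂, ∃ r : ρ₂, σ (Sum.inr c) = Sum.inr r := by
      intro c
      rcases hr : σ (Sum.inr c) with r | r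
      · obtain ⟨c', hc'⟩ := hfb.2 r
        rw [← hc', ← hf c'] at hr
        exact absurd (σ.injective hr) (by simp)
      · exact ⟨r, rfl⟩
    choose g hg using h2
    have hgi : Function.Injective g := fun c c' hcc => by
      have := hg c
      rw [hcc, ← hg c'] at this
      exact Sum.inr_injective (σ.injective this)
    have hcard : Fintype.card κ₂ = Fintype.card ρ₂ := by
      have := Fintype.card_congr σ
      rw [Fintype.card_sum, Fintype.card_sum] at this
      omega
    have hgb : Function.Bijective g :=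
      (Fintype.bijective_iff_injective_and_card g).2 ⟨hgi, hcard⟩
    apply hσ
    refine ⟨(Equiv.ofBijective f hfb, Equiv.ofBijective g hgb), Finset.mem_coe.2
      (Finset.mem_univ _), ?_⟩
    ext c
    rcases c with c | c
    · simp [hf]
    · simp [hg]
  · rintro ⟨a, b⟩ _
    rw [Fintype.prod_sum_type]
    rfl

theorem pm_eq_zero (A : ρ₁ ⊕ ρ₂ → κ₁ ⊕ κ₂ → R) (h : Fintype.card ρ₁ < Fintype.card κ₁)
    (h0 : ∀ r c, A (Sum.inr r) (Sum.inl c) = 0) : pm A = 0 := by
  unfold pm
  refine Finset.sum_eq_zero fun σ _ => ?_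
  by_contra hne
  have hne' : ∀ c, A (σ c) c ≠ 0 := fun c hc =>
    hne (Finset.prod_eq_zero (Finset.mem_univ c) hc)
  have h1 : ∀ c : κ₁, ∃ r : ρ₁, σ (Sum.inl c) = Sum.inl r := by
    intro c
    rcases hr : σ (Sum.inl c) with r | r
    · exact ⟨r, rfl⟩
    · exact absurd (h0 r c) (by rw [← hr]; exact hne' _)
  choose f hf using h1
  have hfi : Function.Injective f := fun c c' hcc => by
    have := hf c
    rw [hcc, ← hf c'] at this
    exact Sum.inl_injective (σ.injective this)
  exact absurd (Fintype.card_le_of_injective f hfi) (by omega)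

theorem pm_ones {n : ℕ} (h : Fintype.card ρ = n) (h' : Fintype.card κ = n) :
    pm (fun (_ : ρ) (_ : κ) => (1 : R)) = (n ! : R) := by
  unfold pm
  have e : κ ≃ ρ := Fintype.equivOfCardEq (h'.trans h.symm)
  simp [Fintype.card_equiv e, h']

theorem pm_delta : pm (fun (i j : ρ) => if i = j then (1 : R) else 0) = 1 := by
  unfold pm
  rw [Finset.sum_eq_single (Equiv.refl ρ)]
  · simp
  · intro σ _ hσ
    obtain ⟨c, hc⟩ : ∃ c, σ c ≠ c := by
      by_contra hcon
      push Not at hcon
      exact hσ (Equiv.ext hcon)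
    exact Finset.prod_eq_zero (Finset.mem_univ c) (if_neg hc)
  · intro h
    exact absurd (Finset.mem_univ _) h

end pm

end Pool.Agent.PerSL2
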