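import Pool.Agent.PerSL2.Defs
import Pool.Agent.H10.PerSL.Gadget

/-!
The expansion of the general gadget.
-/

set_option autoImplicit false

namespace Pool.Agent.PerSL2

open Finset MvPolynomial
open scoped Nat
open Pool.Agent.H10.PerSL.Gad

universe u v w

namespace GlAux

section kill

variable {σ τ : Type} {R : Type u} [CommRing R]

theorem coeff_kill {f : σ → τ} (hf : Function.Injective f) (p : MvPolynomial τ R) (m : σ →₀ ℕ) :
    coeff m (killCompl hf p) = coeff (m.mapDomain f) p := by
  classical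
  induction p using MvPolynomial.induction_on' with
  | monomial s c =>
    by_cases hs : (s.support : Set τ) ⊆ Set.range f
    · rw [killCompl_monomial_eq_monomial_comapDomain_of_subset hf c hs, coeff_monomial,
        coeff_monomial]
      have h : s.comapDomain f hf.injOn = m ↔ s = m.mapDomain f := by
        constructor
        · rintro rfl
          exact (Finsupp.mapDomain_comapDomain f hf s hs).symm
        · rintro rfl
          exact Finsupp.comapDomain_mapDomain f hf m
      simp only [h]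
    · rw [killCompl_monomial_eq_zero_of_not_subset hf c hs, coeff_zero, coeff_monomial, if_neg]
      rintro rfl
      apply hs
      intro x hx
      have h1 := Finsupp.mapDomain_support hx
      rw [Finset.mem_image] at h1
      obtain ⟨y, -, rfl⟩ := h1
      exact ⟨y, rfl⟩
  | add p q hp hq => rw [map_add, coeff_add, coeff_add, hp, hq]

theorem kill_X {f : σ → τ} (hf : Function.Injective f) (i : σ) :
    killCompl hf (X (f i) : MvPolynomial τ R) = X i := by
  have h := killCompl_rename_app hf (X i : MvPolynomial σ R)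
  rwa [rename_X] at h

theorem kill_X_notMem {f : σ → τ} (hf : Function.Injective f) (j : τ) (hj : j ∉ Set.range f) :
    killCompl hf (X j : MvPolynomial τ R) = 0 := by
  rw [killCompl, aeval_X, dif_neg hj]

theorem kill_col [Fintype σ] [Fintype τ] {f : σ → τ} (hf : Function.Injective f) (a : τ → R) :
    killCompl hf (∑ i, C (a i) * (X i : MvPolynomial τ R)) =
      ∑ i, C (a (f i)) * (X i : MvPolynomial σ R) := by
  rw [map_sum]
  symm
  apply Fintype.sum_of_injective f hf
  · intro j hj
    rw [map_mul, kill_X_notMem hf j hj, mul_zero]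
  · intro i
    rw [map_mul, kill_X, killCompl_C]

theorem ind_map [Fintype σ] {f : σ → τ} (hf : Function.Injective f) :
    (ind (univ : Finset σ)).mapDomain f = ind (univ.map ⟨f, hf⟩) := by
  unfold ind
  rw [Finsupp.mapDomain_finset_sum, Finset.sum_map]
  apply Finset.sum_congr rfl
  intro i _
  rw [Finsupp.mapDomain_single]
  rfl

end kill

variable {R : Type u} [CommRing R] {Q I ρ : Type}
  [Fintype Q] [DecidableEq Q] [Fintype I] [DecidableEq I] [Fintype ρ] [DecidableEq ρ]

/-- the rows belonging to `S` -/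
def bl (ρ : Type) (I : Type) [Fintype I] (S : Finset Q) : Finset (ρ ⊕ Q × I) :=
  (S ×ˢ (univ : Finset I)).map ⟨Sum.inr, Sum.inr_injective⟩

theorem mem_bl (S : Finset Q) (x : ρ ⊕ Q × I) : x ∈ bl ρ I S ↔ ∃ q ∈ S, ∃ i, x = Sum.inr (q, i) := by
  unfold bl
  rw [Finset.mem_map]
  constructor
  · rintro ⟨⟨q, i⟩, h, rfl⟩
    exact ⟨q, (Finset.mem_product.1 h).1, i, rfl⟩
  · rintro ⟨q, hq, i, rfl⟩
    exact ⟨(q, i), Finset.mem_product.2 ⟨hq, mem_univ _⟩, rfl⟩

/-- the sum of the variables of the rows `(q, i)` -/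
noncomputable def chi (R : Type u) [CommRing R] (ρ I : Type) [Fintype I] (q : Q) :
    MvPolynomial (ρ ⊕ Q × I) R := ∑ i, X (Sum.inr (q, i))

theorem chi_eq (q : Q) : chi R ρ I q = ∑ x ∈ bl ρ I {q}, X x := by
  unfold chi bl
  rw [Finset.sum_map, Finset.sum_product, Finset.sum_singleton]
  rfl

theorem card_bl (q : Q) : (bl ρ I {q}).card = Fintype.card I := by
  unfold bl
  rw [Finset.card_map, Finset.card_product, Finset.card_singleton, one_mul, Finset.card_univ]

theorem coeff_chi (S : Finset Q) (k : ℕ) (hk : Fintype.card I = k) (F : MvPolynomial (ρ ⊕ Q × I) R) :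
    ∀ W : Finset (ρ ⊕ Q × I), bl ρ I S ⊆ W →
      coeff (ind W) ((∏ q ∈ S, chi R ρ I q ^ k) * F) =
        (k ! : R) ^ S.card * coeff (ind (W \ bl ρ I S)) F := by
  induction S using Finset.induction_on with
  | empty =>
    intro W _
    have : bl ρ I (∅ : Finset Q) = ∅ := by simp [bl]
    rw [this]
    simp
  | insert q S hq ih =>
    intro W hW
    have h1 : bl ρ I {q} ⊆ W := by
      intro x hx
      apply hW
      rw [mem_bl] at hx ⊢
      obtain ⟨q', hq', i, rfl⟩ := hx
      rw [Finset.mem_singleton] at hq'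
      exact ⟨q', by rw [hq']; exact mem_insert_self _ _, i, rfl⟩
    have h2 : bl ρ I S ⊆ W \ bl ρ I {q} := by
      intro x hx
      rw [mem_bl] at hx
      obtain ⟨q', hq', i, rfl⟩ := hx
      rw [Finset.mem_sdiff]
      refine ⟨hW ?_, ?_⟩
      · rw [mem_bl]
        exact ⟨q', mem_insert_of_mem hq', i, rfl⟩
      · rw [mem_bl]
        rintro ⟨q'', hq'', i', h⟩
        rw [Finset.mem_singleton] at hq''
        have h3 := Sum.inr_injective h
        rw [Prod.mk.injEq] at h3
        rw [h3.1, hq''] at hq'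
        exact hq hq'
    rw [Finset.prod_insert hq, mul_assoc, chi_eq q, ← hk, ← card_bl (ρ := ρ) (I := I) q,
      coeff_sumX_pow_card_mul _ _ h1, card_bl, hk, ih _ h2, Finset.card_insert_of_notMem hq,
      pow_succ']
    have hset : (W \ bl ρ I {q}) \ bl ρ I S = W \ bl ρ I (insert q S) := by
      ext x
      simp only [Finset.mem_sdiff, mem_bl, Finset.mem_singleton, Finset.mem_insert]
      constructor
      · rintro ⟨⟨h3, h4⟩, h5⟩
        refine ⟨h3, ?_⟩
        rintro ⟨q', hq' | hq', i, hx⟩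
        · exact h4 ⟨q', hq', i, hx⟩
        · exact h5 ⟨q', hq', i, hx⟩
      · rintro ⟨h3, h4⟩
        refine ⟨⟨h3, ?_⟩, ?_⟩
        · rintro ⟨q', hq', i, hx⟩
          exact h4 ⟨q', Or.inl hq', i, hx⟩
        · rintro ⟨q', hq', i, hx⟩
          exact h4 ⟨q', Or.inr hq', i, hx⟩
    rw [hset, mul_assoc]

/-- the inclusion of the rows of the smaller gadget -/
def inc (ρ I : Type) (T : Finset Q) : ρ ⊕ ({q // q ∈ T} × I) → ρ ⊕ (Q × I) :=
  Sum.map id (Prod.map Subtype.val id)

omit [Fintype Q] [DecidableEq Q] [Fintype I] [DecidableEq I] [Fintype ρ] [DecidableEq ρ] in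
theorem inc_inj (T : Finset Q) : Function.Injective (inc ρ I T) := by
  rintro (r | ⟨q, i⟩) (r' | ⟨q', i'⟩) h
  · exact congrArg Sum.inl (Sum.inl_injective h)
  · exact absurd h (by simp [inc])
  · exact absurd h (by simp [inc])
  · have h2 : (Sum.inr ((q : Q), i) : ρ ⊕ Q × I) = Sum.inr ((q' : Q), i') := h
    have h3 := Sum.inr_injective h2
    rw [Prod.mk.injEq] at h3
    rw [Subtype.ext h3.1, h3.2]

theorem univ_sdiff_bl (T : Finset Q) :
    (univ : Finset (ρ ⊕ Q × I)) \ bl ρ I (univ \ T) = univ.map ⟨inc ρ I T, inc_inj T⟩ := by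
  ext x
  rw [Finset.mem_sdiff, mem_bl, Finset.mem_map]
  constructor
  · rintro ⟨-, h⟩
    rcases x with r | ⟨q, i⟩
    · exact ⟨Sum.inl r, mem_univ _, rfl⟩
    · have hq : q ∈ T := by
        by_contra hq
        exact h ⟨q, Finset.mem_sdiff.2 ⟨mem_univ _, hq⟩, i, rfl⟩
      exact ⟨Sum.inr (⟨q, hq⟩, i), mem_univ _, rfl⟩
  · rintro ⟨y, -, rfl⟩
    refine ⟨mem_univ _, ?_⟩
    rintro ⟨q, hq, i, h⟩
    rcases y with r | ⟨q', i'⟩
    · exact absurd h (by simp [inc])
    · have h1 : (q' : Q) = q := by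
        have h2 : (Sum.inr ((q' : Q), i') : ρ ⊕ Q × I) = Sum.inr (q, i) := h
        have h3 := Sum.inr_injective h2
        rw [Prod.mk.injEq] at h3
        exact h3.1
      rw [Finset.mem_sdiff] at hq
      exact hq.2 (h1 ▸ q'.2)

end GlAux

open GlAux

theorem gl {K R : Type u} [Field K] [CommRing R] [Algebra K R] {Q I ρ κ : Type}
    [Fintype Q] [DecidableEq Q] [Fintype I] [DecidableEq I] [Fintype ρ] [DecidableEq ρ]
    [Fintype κ] [DecidableEq κ] {k : ℕ} (hI : Fintype.card I = k) (hk : 0 < k) {η : K}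
    (hη : IsPrimitiveRoot η k) (W : ρ → κ → R) (b : Q → ρ → R) (N : Q → I → κ → R) :
    pm (glM (k := k) η W b N) = ∑ T : Finset Q,
      algebraMap K R ((-1) ^ (univ \ T).card * (k ! : K) ^ (univ \ T).card) *
        pm (glQ (k := k) T W b N) := by
  classical
  -- columns
  let F : κ → MvPolynomial (ρ ⊕ Q × I) R := fun c =>
    ∑ r, C (W r c) * X (Sum.inl r) + ∑ x : Q × I, C (N x.1 x.2 c) * X (Sum.inr x)
  let β : Q → MvPolynomial (ρ ⊕ Q × I) R := fun q => ∑ r, C (b q r) * X (Sum.inl r)
  have hcol : ∀ (q : Q) (v : Fin k), (∑ x : ρ ⊕ Q × I, C (glM (k := k) η W b N x (Sum.inr (q, v))) *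
      (X x : MvPolynomial (ρ ⊕ Q × I) R)) =
      β q - algebraMap K (MvPolynomial (ρ ⊕ Q × I) R) (η ^ (v : ℕ)) * chi R ρ I q := by
    intro q v
    rw [Fintype.sum_sum_type, sub_eq_add_neg]
    congr 1
    rw [Fintype.sum_prod_type, Finset.sum_eq_single q]
    · unfold chi
      rw [Finset.mul_sum, ← Finset.sum_neg_distrib]
      apply Finset.sum_congr rfl
      intro i _
      change C (if q = q then -(algebraMap K R (η ^ (v : ℕ))) else 0) * X (Sum.inr (q, i)) = _
      rw [if_pos rfl, map_neg, neg_mul]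
      rfl
    · intro q' _ hq'
      apply Finset.sum_eq_zero
      intro i _
      change C (if q' = q then -(algebraMap K R (η ^ (v : ℕ))) else 0) * X (Sum.inr (q', i)) = _
      rw [if_neg hq', map_zero, zero_mul]
    · intro h
      exact absurd (mem_univ q) h
  have hM : pm (glM (k := k) η W b N) =
      coeff (ind univ) ((∏ c, F c) * ∏ q, (β q ^ k - chi R ρ I q ^ k)) := by
    unfold pm
    rw [perm_coeff, Fintype.prod_sum_type]
    congr 2
    · apply Finset.prod_congr rfl
      intro c _
      rw [Fintype.sum_sum_type]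
      rfl
    · rw [Fintype.prod_prod_type]
      apply Finset.prod_congr rfl
      intro q _
      rw [← Pool.Agent.H10.PerSL.Gad.prod_roots hk hη]
      apply Finset.prod_congr rfl
      intro v _
      exact hcol q v
  have hT : ∀ T : Finset Q, pm (glQ (k := k) T W b N) =
      coeff (ind (univ \ bl ρ I (univ \ T))) ((∏ c, F c) * ∏ q ∈ T, β q ^ k) := by
    intro T
    let A : ρ ⊕ (Q × I) → κ ⊕ ({q // q ∈ T} × Fin k) → R := fun x y =>
      Sum.elim (fun r => Sum.elim (fun c => W r c) (fun y => b y.1 r) y)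
        (fun x => Sum.elim (fun c => N x.1 x.2 c) (fun _ => 0) y) x
    have hA : ∀ x y, glQ (k := k) T W b N x y = A (inc ρ I T x) y := by
      rintro (r | ⟨q, i⟩) (c | ⟨q', v⟩) <;> rfl
    have h1 : pm (glQ (k := k) T W b N) = pm (fun x y => A (inc ρ I T x) y) := by
      congr 1
      funext x y
      exact hA x y
    rw [h1, univ_sdiff_bl, ← ind_map (inc_inj T), ← coeff_kill (inc_inj T)]
    refine (perm_coeff (fun x y => A (inc ρ I T x) y)).trans ?_
    congr 1
    have h2 : ((∏ c, F c) * ∏ q ∈ T, β q ^ k) =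
        ∏ y, ∑ x, C (A x y) * (X x : MvPolynomial (ρ ⊕ Q × I) R) := by
      rw [Fintype.prod_sum_type]
      congr 1
      · apply Finset.prod_congr rfl
        intro c _
        rw [Fintype.sum_sum_type]
        rfl
      · rw [Fintype.prod_prod_type, ← Finset.prod_coe_sort T (fun q => β q ^ k)]
        apply Finset.prod_congr rfl
        intro q _
        have h3 : ∀ v : Fin k, (∑ x, C (A x (Sum.inr (q, v))) *
            (X x : MvPolynomial (ρ ⊕ Q × I) R)) = β q := by
          intro v
          rw [Fintype.sum_sum_type]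
          have h4 : ∑ x : Q × I, C (A (Sum.inr x) (Sum.inr (q, v))) *
              (X (Sum.inr x) : MvPolynomial (ρ ⊕ Q × I) R) = 0 := by
            apply Finset.sum_eq_zero
            intro x _
            change C (0 : R) * _ = _
            rw [map_zero, zero_mul]
          rw [h4, add_zero]
          rfl
        simp only [h3]
        rw [Finset.prod_const, Finset.card_univ, Fintype.card_fin]
    rw [h2, map_prod]
    apply Finset.prod_congr rfl
    intro y _
    rw [kill_col]
  have hexp : ∏ q, (β q ^ k - chi R ρ I q ^ k) =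
      ∑ T : Finset Q, (∏ q ∈ T, β q ^ k) * ∏ q ∈ univ \ T, -chi R ρ I q ^ k := by
    simp only [sub_eq_add_neg]
    rw [Finset.prod_add, Finset.powerset_univ]
  rw [hM, hexp, Finset.mul_sum, coeff_sum]
  apply Finset.sum_congr rfl
  intro T _
  rw [hT]
  have h5 : ∏ q ∈ univ \ T, -chi R ρ I q ^ k =
      C ((-1 : R) ^ (univ \ T).card) * ∏ q ∈ univ \ T, chi R ρ I q ^ k := by
    rw [Finset.prod_neg, map_pow, map_neg, map_one]
  rw [h5]
  have h6 : (∏ c, F c) * ((∏ q ∈ T, β q ^ k) *
      (C ((-1 : R) ^ (univ \ T).card) * ∏ q ∈ univ \ T, chi R ρ I q ^ k)) =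
      C ((-1 : R) ^ (univ \ T).card) * ((∏ q ∈ univ \ T, chi R ρ I q ^ k) *
        ((∏ c, F c) * ∏ q ∈ T, β q ^ k)) := by ring
  rw [h6, coeff_C_mul, coeff_chi _ k hI _ _ (Finset.subset_univ _)]
  rw [map_mul, map_pow, map_pow, map_neg, map_one, map_natCast]
  ring

end Pool.Agent.PerSL2
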