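import Pool.Agent.PerSL2.Pm
import Pool.Agent.PerSL2.Gl

/-!
The sheets.
-/

set_option autoImplicit false

namespace Pool.Agent.PerSL2

open Finset
open scoped Nat

universe u

theorem sum_small {S : Type} [Fintype S] [DecidableEq S] {R : Type u} [CommRing R]
    (f : Finset S → R) (h : ∀ T : Finset S, 2 ≤ T.card → f T = 0) :
    ∑ T : Finset S, f T = f ∅ + ∑ s, f {s} := by
  classical
  have h1 : ∑ T : Finset S, f T =
      ∑ T ∈ insert ∅ ((univ : Finset S).image (fun s => ({s} : Finset S))), f T := by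
    symm
    apply Finset.sum_subset (Finset.subset_univ _)
    intro T _ hT
    apply h
    by_contra hcon
    apply hT
    have h2 : T.card = 0 ∨ T.card = 1 := by omega
    rcases h2 with h2 | h2
    · rw [Finset.card_eq_zero.1 h2]
      exact Finset.mem_insert_self _ _
    · obtain ⟨s, hs⟩ := Finset.card_eq_one.1 h2
      rw [hs]
      exact Finset.mem_insert_of_mem (Finset.mem_image.2 ⟨s, Finset.mem_univ _, rfl⟩)
  rw [h1, Finset.sum_insert, Finset.sum_image]
  · intro a _ b _ hab
    exact Finset.singleton_injective hab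
  · simp

section glQ

variable {R : Type u} [CommRing R] {Q I ρ κ : Type} [Fintype Q] [DecidableEq Q] [Fintype I]
  [DecidableEq I] [Fintype ρ] [DecidableEq ρ] [Fintype κ] [DecidableEq κ]

theorem pm_glQ_empty {k : ℕ} (W : ρ → κ → R) (b : Q → ρ → R) (N : Q → I → κ → R) :
    pm (glQ (k := k) ∅ W b N) = pm W := by
  have e1 : IsEmpty ({q // q ∈ (∅ : Finset Q)} × I) :=
    ⟨fun x => absurd x.1.2 (Finset.notMem_empty _)⟩
  have e2 : IsEmpty ({q // q ∈ (∅ : Finset Q)} × Fin k) :=
    ⟨fun x => absurd x.1.2 (Finset.notMem_empty _)⟩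
  exact (pm_reindex (Equiv.sumEmpty ρ ({q // q ∈ (∅ : Finset Q)} × I)).symm
    (Equiv.sumEmpty κ ({q // q ∈ (∅ : Finset Q)} × Fin k)).symm
    (glQ (k := k) ∅ W b N)).symm

end glQ

section sheet

variable {R : Type u} [CommRing R] {S I ρ κ : Type} [Fintype S] [DecidableEq S]
  [Fintype I] [DecidableEq I] [Fintype ρ] [DecidableEq ρ] [Fintype κ] [DecidableEq κ] {m : ℕ}

/-- rows for one released sheet -/
def eR1 (m : ℕ) (I ρ : Type) {S : Type} (s : S) :
    Fin m ⊕ (I ⊕ ρ) ≃ (Fin m ⊕ ρ) ⊕ ({q // q ∈ ({s} : Finset S)} × I) where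
  toFun
    | Sum.inl u => Sum.inl (Sum.inl u)
    | Sum.inr (Sum.inl i) => Sum.inr (⟨s, Finset.mem_singleton_self s⟩, i)
    | Sum.inr (Sum.inr r) => Sum.inl (Sum.inr r)
  invFun
    | Sum.inl (Sum.inl u) => Sum.inl u
    | Sum.inl (Sum.inr r) => Sum.inr (Sum.inr r)
    | Sum.inr (_, i) => Sum.inr (Sum.inl i)
  left_inv x := by rcases x with u | (i | r) <;> rfl
  right_inv x := by
    rcases x with (u | r) | ⟨⟨q, hq⟩, i⟩
    · rfl
    · rfl
    · have : q = s := Finset.mem_singleton.1 hq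
      subst this
      rfl

/-- columns for one released sheet -/
def eC1 (m : ℕ) (κ : Type) {S : Type} (s : S) :
    Fin m ⊕ κ ≃ κ ⊕ ({q // q ∈ ({s} : Finset S)} × Fin m) where
  toFun
    | Sum.inl v => Sum.inr (⟨s, Finset.mem_singleton_self s⟩, v)
    | Sum.inr c => Sum.inl c
  invFun
    | Sum.inl c => Sum.inr c
    | Sum.inr (_, v) => Sum.inl v
  left_inv x := by rcases x with v | c <;> rfl
  right_inv x := by
    rcases x with c | ⟨⟨q, hq⟩, v⟩
    · rfl
    · have : q = s := Finset.mem_singleton.1 hq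
      subst this
      rfl

theorem pm_sheet_one (N : S → I → κ → R) (x : κ → R) (W : ρ → κ → R) (s : S) :
    pm (glQ (k := m) {s} (fun (r : Fin m ⊕ ρ) c => Sum.elim (fun _ => x c) (fun r' => W r' c) r)
      (fun _ r => Sum.elim (fun _ => 1) (fun _ => 0) r) N) =
    (m ! : R) * pm (fun (r : I ⊕ ρ) c => Sum.elim (fun i => N s i c) (fun r' => W r' c) r) := by
  rw [← pm_reindex (eR1 m I ρ s) (eC1 m κ s), pm_block]
  · congr 1
    · rw [← pm_ones (ρ := Fin m) (κ := Fin m) (R := R) (Fintype.card_fin m) (Fintype.card_fin m)]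
      rfl
    · congr 1
      funext r c
      rcases r with i | r <;> rfl
  · rfl
  · intro r c
    rcases r with i | r <;> rfl

theorem pm_sheet_two {T : Finset S} (hT : 2 ≤ T.card) (hm : 0 < m) (N : S → I → κ → R)
    (x : κ → R) (W : ρ → κ → R) :
    pm (glQ (k := m) T (fun (r : Fin m ⊕ ρ) c => Sum.elim (fun _ => x c) (fun r' => W r' c) r)
      (fun _ r => Sum.elim (fun _ => 1) (fun _ => 0) r) N) = 0 := by
  rw [← pm_reindex (Equiv.sumAssoc (Fin m) ρ ({q // q ∈ T} × I)).symm
    (Equiv.sumComm ({q // q ∈ T} × Fin m) κ)]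
  apply pm_eq_zero
  · rw [Fintype.card_prod, Fintype.card_fin, Fintype.card_coe]
    nlinarith
  · intro r c
    rcases r with r | r <;> rfl

end sheet

theorem sheet {K R : Type u} [Field K] [CommRing R] [Algebra K R] {S I ρ κ : Type}
    [Fintype S] [DecidableEq S] [Fintype I] [DecidableEq I] [Fintype ρ] [DecidableEq ρ]
    [Fintype κ] [DecidableEq κ] {m : ℕ} (hI : Fintype.card I = m) (hm : 0 < m) {ζ : K}
    (hζ : IsPrimitiveRoot ζ m) (N : S → I → κ → R) (x : κ → R) (W : ρ → κ → R) :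
    pm (shM (m := m) ζ N x W) =
      algebraMap K R ((-1) ^ Fintype.card S * (m ! : K) ^ Fintype.card S) *
        pm (fun (r : Fin m ⊕ ρ) c => Sum.elim (fun _ => x c) (fun r' => W r' c) r) +
      algebraMap K R ((-1) ^ (Fintype.card S - 1) * (m ! : K) ^ Fintype.card S) *
        ∑ s, pm (fun (r : I ⊕ ρ) c => Sum.elim (fun i => N s i c) (fun r' => W r' c) r) := by
  unfold shM
  rw [gl hI hm hζ, sum_small]
  · congr 1
    · rw [pm_glQ_empty, Finset.sdiff_empty, Finset.card_univ]
    · rw [Finset.mul_sum]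
      refine Finset.sum_congr rfl fun s _ => ?_
      rw [pm_sheet_one, Finset.card_sdiff_of_subset (Finset.subset_univ _), Finset.card_univ,
        Finset.card_singleton, ← mul_assoc]
      congr 1
      have hS : Fintype.card S = (Fintype.card S - 1) + 1 := by
        have : 0 < Fintype.card S := Fintype.card_pos_iff.2 ⟨s⟩
        omega
      have e3 : (m ! : R) = algebraMap K R (m ! : K) := by simp
      rw [e3, ← map_mul]
      congr 1
      obtain ⟨n, hn⟩ : ∃ n, Fintype.card S = n + 1 := ⟨_, hS⟩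
      rw [hn, Nat.add_sub_cancel]
      ring
  · intro T hT
    rw [pm_sheet_two hT hm, mul_zero]

end Pool.Agent.PerSL2
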