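import Pool.Agent.PerSL2.Defs
import Pool.Agent.H10.PerSL.Crit
import Pool.Agent.H10.PerSL.GroupsAux

/-!
M8: critical points of the direct sum of elementary symmetric polynomials.
-/

set_option autoImplicit false

namespace Pool.Agent.PerSL2

open Finset MvPolynomial
open scoped Nat
open Pool.Agent.H10.PerSL (es es_erase es_erase_one es_erase_top es_erase_two es_types es_equiv
  es_eq_zero map_es count_balanced)

universe u

section der

variable {V : Type} {K : Type u} [Field K]

theorem der_es_zero (D : Derivation K (MvPolynomial V K) (MvPolynomial V K)) {B : Type}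
    (s : Finset B) (a : ℕ) (f : B → MvPolynomial V K) (h : ∀ j ∈ s, D (f j) = 0) :
    D (es s a f) = 0 := by
  classical
  rw [es, map_sum]
  refine sum_eq_zero fun C hC => ?_
  have hCs : C ⊆ s := (mem_powersetCard.1 hC).1
  clear hC
  induction C using Finset.induction_on with
  | empty => simp
  | insert b C hb ih =>
    rw [prod_insert hb, Derivation.leibniz, ih ((subset_insert b C).trans hCs),
      h b (hCs (mem_insert_self b C))]
    simp

theorem der_es (D : Derivation K (MvPolynomial V K) (MvPolynomial V K)) {B : Type}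
    [DecidableEq B] (s : Finset B) (k : ℕ) (f : B → MvPolynomial V K) (i : B) (hi : i ∈ s)
    (h : ∀ j ∈ s, j ≠ i → D (f j) = 0) :
    D (es s (k + 1) f) = D (f i) * es (s.erase i) k f := by
  have h0 : ∀ a, D (es (s.erase i) a f) = 0 := fun a =>
    der_es_zero D _ a f fun j hj => h j (mem_of_mem_erase hj) (ne_of_mem_erase hj)
  rw [es_erase hi, map_add, Derivation.leibniz, h0, h0, smul_zero, zero_add, zero_add,
    smul_eq_mul, mul_comm]

variable {Ω I : Type} [Fintype Ω] [DecidableEq Ω] [Fintype I] [DecidableEq I]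

theorem pderiv_dsum (k : ℕ) (x : Ω × I) :
    pderiv x (dsum Ω I K (k + 1)) = es (univ.erase x.2) k (fun i => X (x.1, i)) := by
  rw [dsum, map_sum, Finset.sum_eq_single x.1]
  · rw [der_es (pderiv x) univ k _ x.2 (mem_univ _)]
    · rw [show ((x.1, x.2) : Ω × I) = x from rfl, pderiv_X_self, one_mul]
    · intro j _ hj
      exact pderiv_X_of_ne fun h => hj (by rw [← h])
  · intro ω _ hω
    refine der_es_zero _ _ _ _ fun j _ => ?_
    exact pderiv_X_of_ne fun h => hω (by rw [← h])
  · intro h; exact absurd (mem_univ _) h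

theorem pderiv_pderiv_dsum (k : ℕ) (x x' : Ω × I) :
    pderiv x' (pderiv x (dsum Ω I K (k + 1 + 1))) =
      if x'.1 = x.1 ∧ x'.2 ≠ x.2 then
        es ((univ.erase x.2).erase x'.2) k (fun i => X (x.1, i)) else 0 := by
  rw [pderiv_dsum]
  split_ifs with h
  · rw [der_es (pderiv x') _ k _ x'.2 (mem_erase.2 ⟨h.2, mem_univ _⟩)]
    · rw [← h.1, show ((x'.1, x'.2) : Ω × I) = x' from rfl, pderiv_X_self, one_mul]
    · intro j _ hj
      exact pderiv_X_of_ne fun h => hj (by rw [← h])
  · refine der_es_zero _ _ _ _ fun j hj => ?_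
    refine pderiv_X_of_ne fun h' => h ?_
    rw [← h']
    exact ⟨rfl, ne_of_mem_erase hj⟩

end der

section point

variable {K : Type u} [Field K] [CharZero K] {d : ℕ} [NeZero d] {ζ : K}

/-- The reference multiset: every root of unity twice. -/
theorem ref_zero (hζ : IsPrimitiveRoot ζ d) (a : ℕ) (ha : 0 < a) (had : a < d) :
    es univ a (fun p : ZMod d × Fin 2 => ζ ^ p.1.val) = 0 := by
  refine es_eq_zero hζ ha had ?_
  let e : ZMod d × Fin 2 ≃ ZMod d × Fin 2 := (Equiv.addRight (1 : ZMod d)).prodCongr (Equiv.refl _)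
  rw [← es_equiv e a (fun p : ZMod d × Fin 2 => ζ ^ p.1.val)]
  congr 1
  funext p
  change ζ * ζ ^ p.1.val = ζ ^ (p.1 + 1).val
  rw [← pow_succ', ZMod.val_add]
  have h1 : ζ ^ (p.1.val + 1) = ζ ^ ((p.1.val + 1) % d) := by
    conv_lhs => rw [← pow_mod_orderOf, ← hζ.eq_orderOf]
  rw [h1]
  rw [ZMod.val_one_eq_one_mod, Nat.add_mod_mod]

variable {c : Fin (2 * d) → ZMod d}

theorem es_bal (hc : ∀ π, (univ.filter (fun j => c j = π)).card = 2) (a : ℕ) :
    es univ a (fun j => ζ ^ (c j).val) = es univ a (fun p : ZMod d × Fin 2 => ζ ^ p.1.val) := by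
  classical
  refine es_types (T := ZMod d) (c := c) (c' := fun p : ZMod d × Fin 2 => p.1) ?_ a
    (fun π => ζ ^ π.val)
  ext π
  rw [Multiset.count_map, Multiset.count_map]
  have h1 := hc π
  have h2 : (univ.filter (fun j => c j = π)).card =
      Multiset.card (Multiset.filter (fun j => π = c j) (univ : Finset (Fin (2 * d))).val) := by
    rw [Finset.card_def, Finset.filter_val]
    congr 1
    exact Multiset.filter_congr fun j _ => eq_comm
  have h3 : Multiset.card (Multiset.filter (fun p : ZMod d × Fin 2 => π = p.1)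
      (univ : Finset (ZMod d × Fin 2)).val) = 2 := by
    rw [← Finset.filter_val, ← Finset.card_def]
    have : univ.filter (fun p : ZMod d × Fin 2 => π = p.1) =
        ({π} : Finset (ZMod d)) ×ˢ (univ : Finset (Fin 2)) := by
      ext p
      simp only [mem_filter, mem_univ, true_and, mem_product, mem_singleton, and_true]
      exact eq_comm
    rw [this, card_product]
    simp
  rw [← h2, h1, h3]

theorem es_bal_zero (hζ : IsPrimitiveRoot ζ d)
    (hc : ∀ π, (univ.filter (fun j => c j = π)).card = 2) (a : ℕ) (ha : 0 < a) (had : a < d) :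
    es univ a (fun j => ζ ^ (c j).val) = 0 := by
  rw [es_bal hc, ref_zero hζ a ha had]

theorem grad_bal (hd : 0 < d) (hζ : IsPrimitiveRoot ζ d)
    (hc : ∀ π, (univ.filter (fun j => c j = π)).card = 2) (i : Fin (2 * d)) :
    es (univ.erase i) d (fun j => ζ ^ (c j).val) =
      es univ d (fun p : ZMod d × Fin 2 => ζ ^ p.1.val) + (-1) ^ d := by
  rw [es_erase_top hd (fun a ha had => es_bal_zero hζ hc a ha had) i, es_bal hc]
  congr 1
  rw [neg_pow, ← pow_mul, mul_comm, mul_comm _ d, pow_mul, hζ.pow_eq_one, one_pow, one_mul]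

theorem hess_bal (hζ : IsPrimitiveRoot ζ d)
    (hc : ∀ π, (univ.filter (fun j => c j = π)).card = 2) (k : ℕ) (hk : d = k + 1)
    (i l : Fin (2 * d)) (hil : l ≠ i) :
    es ((univ.erase i).erase l) k (fun j => ζ ^ (c j).val) =
      if c l = c i then (d : K) * (-ζ ^ (c i).val) ^ k else 0 := by
  rw [es_erase_two (fun a ha had => es_bal_zero hζ hc a ha had) hil k (by omega)]
  split_ifs with h
  · rw [h]
    have h1 : ∀ p ∈ antidiagonal k, (-ζ ^ (c i).val) ^ p.1 * (-ζ ^ (c i).val) ^ p.2 =
        (-ζ ^ (c i).val) ^ k := by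
      intro p hp
      rw [← pow_add, mem_antidiagonal.1 hp]
    have h3 : k + 1 = d := hk.symm
    rw [sum_congr rfl h1, sum_const, Finset.Nat.card_antidiagonal, nsmul_eq_mul, h3]
  · have hne : -ζ ^ (c i).val - -ζ ^ (c l).val ≠ 0 := by
      intro h1
      apply h
      have h2 : ζ ^ (c l).val = ζ ^ (c i).val := by linear_combination h1
      exact ZMod.val_injective d (hζ.pow_inj (ZMod.val_lt _) (ZMod.val_lt _) h2)
    refine (mul_left_cancel₀ hne ?_)
    rw [mul_zero]
    have h1 := (Commute.all (-ζ ^ (c i).val) (-ζ ^ (c l).val)).mul_geom_sum₂ (k + 1)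
    have h2 : ∀ z : ZMod d, (-ζ ^ z.val) ^ (k + 1) = (-1) ^ d := by
      intro z
      rw [← hk, neg_pow, ← pow_mul, mul_comm z.val d, pow_mul, hζ.pow_eq_one, one_pow, mul_one]
    rw [h2, h2, sub_self] at h1
    rw [← h1]
    congr 1
    rw [Finset.Nat.sum_antidiagonal_eq_sum_range_succ_mk]
    refine sum_congr rfl fun j hj => ?_
    have : k + 1 - 1 - j = k - j := by omega
    rw [this]

end point

/-! ### M8 -/

theorem crit2 {K : Type u} [Field K] [CharZero K] {d : ℕ} (hd : 0 < d) {ζ : K}
    (hζ : IsPrimitiveRoot ζ d) (Ω : Type) [Fintype Ω] [DecidableEq Ω] :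
    ∃ (b : K) (cnt : ℕ) (S : Finset (Ω × Fin (2 * d) → K)),
      (2 * d)! ≤ cnt * 2 ^ d ∧ S.card = cnt ^ Fintype.card Ω ∧ ∀ p ∈ S,
        (∀ x, eval p (pderiv x (dsum Ω (Fin (2 * d)) K (d + 1))) = b) ∧
        (Matrix.of fun x x' =>
          eval p (pderiv x' (pderiv x (dsum Ω (Fin (2 * d)) K (d + 1))))).det ≠ 0 := by
  classical
  have : NeZero d := ⟨hd.ne'⟩
  set Bal : Finset (Fin (2 * d) → ZMod d) :=
    univ.filter (fun c => ∀ π, (univ.filter (fun j => c j = π)).card = 2) with hBal
  have hcount : (2 * d)! ≤ Bal.card * 2 ^ d := by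
    have := count_balanced (T := ZMod d) (2 * d) 2 (by rw [ZMod.card])
    rw [ZMod.card] at this
    exact this
  let pt : (Ω → (Fin (2 * d) → ZMod d)) → (Ω × Fin (2 * d) → K) :=
    fun c q => ζ ^ (c q.1 q.2).val
  have hpt : Function.Injective pt := by
    intro c c' h
    funext ω j
    exact ZMod.val_injective d (hζ.pow_inj (ZMod.val_lt _) (ZMod.val_lt _) (congrFun h (ω, j)))
  refine ⟨es univ d (fun p : ZMod d × Fin 2 => ζ ^ p.1.val) + (-1) ^ d, Bal.card,
    (Fintype.piFinset fun _ : Ω => Bal).image pt, hcount, ?_, ?_⟩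
  · rw [card_image_of_injective _ hpt, Fintype.card_piFinset, prod_const, card_univ]
  · intro p hp
    obtain ⟨c, hcB, rfl⟩ := mem_image.1 hp
    have hc : ∀ ω, ∀ π, (univ.filter (fun j => c ω j = π)).card = 2 := by
      intro ω
      exact (mem_filter.1 ((Fintype.mem_piFinset.1 hcB) ω)).2
    have hev : ∀ (s : Finset (Fin (2 * d))) (a : ℕ) (ω : Ω),
        eval (pt c) (es s a (fun i => (X (ω, i) : MvPolynomial (Ω × Fin (2 * d)) K))) =
          es s a (fun j => ζ ^ (c ω j).val) := by
      intro s a ω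
      rw [map_es]
      simp only [eval_X]
      rfl
    refine ⟨fun x => ?_, ?_⟩
    · rw [pderiv_dsum, hev, grad_bal hd hζ (hc x.1)]
    · obtain ⟨k, hk⟩ : ∃ k, d = k + 1 := ⟨d - 1, by omega⟩
      have hentry : ∀ x x' : Ω × Fin (2 * d),
          eval (pt c) (pderiv x' (pderiv x (dsum Ω (Fin (2 * d)) K (d + 1)))) =
          if x'.1 = x.1 ∧ x'.2 ≠ x.2 ∧ c x.1 x'.2 = c x.1 x.2 then
            (d : K) * (-ζ ^ (c x.1 x.2).val) ^ k else 0 := by
        intro x x'
        have h1 : d + 1 = k + 1 + 1 := by omega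
        rw [h1, pderiv_pderiv_dsum]
        by_cases h : x'.1 = x.1 ∧ x'.2 ≠ x.2
        · rw [if_pos h, hev, hess_bal hζ (hc x.1) k hk x.2 x'.2 h.2]
          by_cases h2 : c x.1 x'.2 = c x.1 x.2
          · rw [if_pos h2, if_pos ⟨h.1, h.2, h2⟩]
          · rw [if_neg h2, if_neg fun h3 => h2 h3.2.2]
        · rw [if_neg h, map_zero, if_neg fun h3 => h ⟨h3.1, h3.2.1⟩]
      intro hdet
      obtain ⟨w, hw0, hw⟩ := Matrix.exists_mulVec_eq_zero_iff.2 hdet
      apply hw0
      funext x
      -- the partner of `x`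
      obtain ⟨l, hl, hlc⟩ : ∃ l : Fin (2 * d), l ≠ x.2 ∧ c x.1 l = c x.1 x.2 := by
        have h1 : 1 < (univ.filter (fun j => c x.1 j = c x.1 x.2)).card := by
          rw [hc]; norm_num
        obtain ⟨l, hl, hl'⟩ := exists_mem_ne h1 x.2
        exact ⟨l, hl', (mem_filter.1 hl).2⟩
      have h1 := congrFun hw (x.1, l)
      rw [Matrix.mulVec, dotProduct] at h1
      simp only [Matrix.of_apply, Pi.zero_apply] at h1
      rw [Finset.sum_eq_single x] at h1
      · rw [hentry, if_pos ⟨rfl, hl.symm, hlc.symm⟩] at h1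
        rcases mul_eq_zero.1 h1 with h2 | h2
        · exfalso
          rcases mul_eq_zero.1 h2 with h3 | h3
          · exact hd.ne' (by exact_mod_cast h3)
          · exact pow_ne_zero _ (neg_ne_zero.2 (pow_ne_zero _ (hζ.ne_zero hd.ne'))) h3
        · exact h2
      · intro y _ hy
        rw [hentry, if_neg, zero_mul]
        rintro ⟨h2, h3, h4⟩
        simp only at h2 h3 h4
        -- three elements in a fibre of size two
        have h5 : y.2 ≠ x.2 := fun h6 => hy (Prod.ext h2 h6)
        have h7 : ({y.2, x.2, l} : Finset (Fin (2 * d))) ⊆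
            univ.filter (fun j => c x.1 j = c x.1 x.2) := by
          intro z hz
          simp only [mem_insert, mem_singleton] at hz
          rw [mem_filter]
          refine ⟨mem_univ _, ?_⟩
          rcases hz with rfl | rfl | rfl
          · rw [h4, hlc]
          · rfl
          · exact hlc
        have h8 := card_le_card h7
        rw [hc, card_eq_three.2 ⟨y.2, x.2, l, h5, h3, hl.symm, rfl⟩] at h8
        omega
      · intro h; exact absurd (mem_univ _) h

end Pool.Agent.PerSL2
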