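import Pool.Agent.PerSL2.Full
import Pool.Agent.PerSL2.Crit
import Pool.Agent.H10.PerSL.Main

/-!
Assembly.
-/

set_option autoImplicit false

namespace Pool.Agent.PerSL2

open Finset MvPolynomial
open scoped Nat
open Pool.Agent.H10.PerSL
open Pool.Agent.H53.AC

universe u

/-- padding with an identity block -/
def pad {Row Col : Type} {R : Type u} [CommRing R] (e : ℕ) (A : Row → Col → R) :
    Row ⊕ Fin e → Col ⊕ Fin e → R
  | Sum.inl r, Sum.inl c => A r c
  | Sum.inr i, Sum.inr j => if i = j then 1 else 0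
  | Sum.inl _, Sum.inr _ => 0
  | Sum.inr _, Sum.inl _ => 0

theorem pm_pad {Row Col : Type} [Fintype Row] [DecidableEq Row] [Fintype Col] [DecidableEq Col]
    {R : Type u} [CommRing R] (e : ℕ) (A : Row → Col → R)
    (h : Fintype.card Row = Fintype.card Col) : pm (pad e A) = pm A := by
  rw [pm_block (pad e A) h (fun _ _ => rfl)]
  have h1 : pm (fun (i j : Fin e) => pad e A (Sum.inr i) (Sum.inr j)) = 1 := pm_delta
  rw [h1, mul_one]
  rfl

theorem Entry.affine {V : Type} {K : Type u} [Field K] {L : Type u} [Field L]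
    [Algebra (PowerSeries K) L] {p : MvPolynomial V (PowerSeries K)} (hp : Entry p) :
    map (algebraMap (PowerSeries K) L) p ∈ affine L V := by
  rcases hp with ⟨s, rfl⟩ | ⟨s, v, rfl⟩
  · rw [map_C]
    exact C_mem_affine _
  · rw [map_mul, map_C, map_X, ← MvPolynomial.smul_eq_C_mul]
    exact Submodule.smul_mem _ _ (X_mem_affine _)

theorem map_dsum {Ω I : Type} [Fintype Ω] [Fintype I] {R S : Type u} [CommRing R] [CommRing S]
    (f : R →+* S) (k : ℕ) : map f (dsum Ω I R k) = dsum Ω I S k := by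
  unfold dsum
  rw [map_sum]
  refine Finset.sum_congr rfl fun ω _ => ?_
  rw [map_es]
  simp only [map_X]

theorem core2 {n d g h τ : ℕ} (hd : 0 < d) (hτ : 0 < τ)
    (hn : g * (2 * d) + 2 * d + h * (2 * d + τ) + (2 * d + τ) + τ * (d + 1) ≤ n)
    (k : Type u) [Field k] [CharZero k] (r : ℕ) (hr : BorderComplexityLE (perPoly n k) r) :
    ∃ cnt : ℕ, (2 * d)! ≤ cnt * 2 ^ d ∧ cnt ^ (g * h * τ) ≤ 2 ^ (3 * r) := by
  have : CharZero (AlgebraicClosure k) := charZero_of_injective_algebraMap
    (algebraMap k (AlgebraicClosure k)).injective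
  have hprim : ∀ N : ℕ, 0 < N → ∃ ζ : AlgebraicClosure k, IsPrimitiveRoot ζ N := by
    intro N hN
    have : NeZero N := ⟨hN.ne'⟩
    exact HasEnoughRootsOfUnity.exists_primitiveRoot _ _
  obtain ⟨ω, hω⟩ := hprim d hd
  obtain ⟨ζ, hζ⟩ := hprim (2 * d) (by omega)
  obtain ⟨ξ, hξ⟩ := hprim (2 * d + τ) (by omega)
  obtain ⟨η, hη⟩ := hprim (d + 1) (by omega)
  obtain ⟨Row, Col, i1, i2, i3, i4, A, s₀, c₁, L, Z, hRow, hCol, hEntry, hc1, hA⟩ :=
    full_gadget (K := AlgebraicClosure k) (g := g) (h := h) (τ := τ) (m := 2 * d) (k := d + 1)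
      (by omega) hτ (by omega) hζ hξ hη
  obtain ⟨b, cnt, S, hcnt, hS, hcrit⟩ := crit2 hd hω (Fin g × Fin h × Fin τ)
  refine ⟨cnt, hcnt, ?_⟩
  have hcardΩ : Fintype.card (Fin g × Fin h × Fin τ) = g * h * τ := by
    simp [mul_assoc]
  rw [hcardΩ] at hS
  rw [← hS]
  obtain ⟨e, he⟩ := Nat.exists_eq_add_of_le hn
  have hcR : Fintype.card (Row ⊕ Fin e) = n := by
    rw [Fintype.card_sum, hRow, Fintype.card_fin, he]
  have hcC : Fintype.card (Col ⊕ Fin e) = n := by
    rw [Fintype.card_sum, hCol, Fintype.card_fin, he]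
  let eR : Fin n ≃ Row ⊕ Fin e := (Fintype.equivFinOfCardEq hcR).symm
  let eC : Fin n ≃ Col ⊕ Fin e := (Fintype.equivFinOfCardEq hcC).symm
  let E : Fin n × Fin n → MvPolynomial ((Fin g × Fin h × Fin τ) × Fin (2 * d))
      (PowerSeries (AlgebraicClosure k)) := fun q => pad e A (eR q.1) (eC q.2)
  let ι := algebraMap (PowerSeries (AlgebraicClosure k))
    (FractionRing (PowerSeries (AlgebraicClosure k)))
  have hinj : Function.Injective ι := IsFractionRing.injective _ _
  have hpe : ∀ r c, Entry (pad e A r c) := by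
    intro r c
    rcases r with r | r <;> rcases c with c | c
    · exact hEntry r c
    · exact Entry_zero
    · exact Entry_zero
    · change Entry (if r = c then 1 else 0)
      split_ifs
      · exact Entry_one
      · exact Entry_zero
  have hE : ∀ q, map ι (E q) ∈ affine (FractionRing (PowerSeries (AlgebraicClosure k)))
        ((Fin g × Fin h × Fin τ) × Fin (2 * d)) := fun q => (hpe _ _).affine
  obtain ⟨r', V, G, hr', hV, hmem⟩ := border_subst hinj hr (e := L + 1) (by omega) E hE
  rw [perPoly_eval₂] at hmem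
  have hpm : (∑ σ : (Col ⊕ Fin e) ≃ (Row ⊕ Fin e), ∏ c, pad e A (σ c) c) = pm A :=
    pm_pad e A (hRow.trans hCol.symm)
  rw [hpm, hA] at hmem
  -- the polynomial `Φ`
  let Φ : MvPolynomial ((Fin g × Fin h × Fin τ) × Fin (2 * d))
      (PowerSeries (AlgebraicClosure k)) :=
    C (PowerSeries.C c₁) * dsum (Fin g × Fin h × Fin τ) (Fin (2 * d))
      (PowerSeries (AlgebraicClosure k)) (d + 1) + C PowerSeries.X * (Z + G)
  have hΦ : map ι Φ ∈ V := by
    have h1 : (C s₀ + C (PowerSeries.X ^ L) *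
        (C (PowerSeries.C c₁) * dsum (Fin g × Fin h × Fin τ) (Fin (2 * d))
          (PowerSeries (AlgebraicClosure k)) (d + 1)) +
        C (PowerSeries.X ^ (L + 1)) * Z + C (PowerSeries.X ^ (L + 1)) * G) =
        C s₀ + C (PowerSeries.X ^ L) * Φ := by
      simp only [Φ, map_pow]
      ring
    rw [h1, map_add, map_mul, map_C, map_C] at hmem
    have h2 : C (ι (PowerSeries.X ^ L)) * map ι Φ ∈ V := by
      have := Submodule.sub_mem _ hmem (hV.C_mem (ι s₀))
      rwa [add_sub_cancel_left] at this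
    rw [← MvPolynomial.smul_eq_C_mul] at h2
    have h3 : ι (PowerSeries.X ^ L) ≠ 0 := by
      rw [Ne, map_eq_zero_iff ι hinj]
      exact pow_ne_zero _ PowerSeries.X_ne_zero
    have := Submodule.smul_mem V (ι (PowerSeries.X ^ L))⁻¹ h2
    rwa [smul_smul, inv_mul_cancel₀ h3, one_smul] at this
  have hred : map (PowerSeries.constantCoeff (R := AlgebraicClosure k)) Φ =
      c₁ • dsum (Fin g × Fin h × Fin τ) (Fin (2 * d)) (AlgebraicClosure k) (d + 1) := by
    simp only [Φ, map_add, map_mul, map_C, PowerSeries.constantCoeff_C,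
      PowerSeries.constantCoeff_X, C_0, zero_mul, add_zero]
    rw [map_dsum, MvPolynomial.smul_eq_C_mul]
  have hb := degree_bound hinj hV Φ hΦ (fun _ => c₁ * b) S (by
    intro p hp
    obtain ⟨hp1, hp2⟩ := hcrit p hp
    rw [hred]
    constructor
    · intro i
      rw [Derivation.map_smul, smul_eval, hp1 i]
    · have : (Matrix.of fun i j => eval p (pderiv j (pderiv i (c₁ •
          dsum (Fin g × Fin h × Fin τ) (Fin (2 * d)) (AlgebraicClosure k) (d + 1))))) =
          c₁ • (Matrix.of fun x x' => eval p (pderiv x' (pderiv x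
            (dsum (Fin g × Fin h × Fin τ) (Fin (2 * d)) (AlgebraicClosure k) (d + 1))))) := by
        ext i j
        simp only [Matrix.of_apply, Matrix.smul_apply]
        rw [Derivation.map_smul, Derivation.map_smul, smul_eval, smul_eq_mul]
      rw [this, Matrix.det_smul]
      exact mul_ne_zero (pow_ne_zero _ hc1) hp2)
  exact hb.trans (Nat.pow_le_pow_right (by norm_num) (by omega))

end Pool.Agent.PerSL2
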