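import Mathlib
import Pool.Agent.H10.PerSL.Asym

/-!
# M9. The choice of parameters with the constant `1/24 - o(1)`
-/

set_option autoImplicit false

namespace Pool.Agent.PerSL2

open Finset
open scoped Nat
open Pool.Agent.H10.PerSL (log_fact_lb)

/-- The numerical heart of M9. -/
theorem asym2_core {n : ℕ} (c δ P S N : ℝ) (hδ0 : 0 < δ) (hδ1 : δ < 1 / 3)
    (hP : 2 ≤ P) (hN : 7 / δ ≤ N) (hS : S = P * N) (hn : (n : ℝ) = P * S * N)
    (hlogP : Real.log P = (1 / 2 - δ) * Real.log n)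
    (hL : 2 ≤ (1 / 2 - δ) * Real.log n)
    (hc : 3 * c * Real.log n ≤ (1 - 2 * δ) * (1 - 3 * δ) / 4 * ((1 / 2 - δ) * Real.log n - 2)) :
    ∃ d g h τ : ℕ, 0 < d ∧ 0 < τ ∧
    g * (2 * d) + 2 * d + h * (2 * d + τ) + (2 * d + τ) + τ * (d + 1) ≤ n ∧
    ∀ r cnt : ℕ, (2 * d)! ≤ cnt * 2 ^ d → cnt ^ (g * h * τ) ≤ 2 ^ (3 * r) →
      c * (n : ℝ) ^ 2 * Real.logb 2 n ≤ r := by
  have hP0 : 0 < P := by linarith
  have hδN : 7 ≤ δ * N := by
    rw [div_le_iff₀ hδ0] at hN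
    linarith
  have hN1 : 1 ≤ N := by nlinarith
  have hN0 : 0 < N := by linarith
  have hS0 : 0 < S := by rw [hS]; positivity
  have hSP : P ≤ S := by rw [hS]; nlinarith
  have hS2 : 2 ≤ S := by linarith
  have hPS0 : 0 < P * S := by positivity
  have hn0 : (0 : ℝ) < n := by rw [hn]; positivity
  -- size facts
  have hA : 4 * P + 2 * S + P * S ≤ δ * n := by
    rw [hn]
    have h1 : P ≤ P * S := by nlinarith
    have h2 : S ≤ P * S := by nlinarith
    have h3 : 7 * (P * S) ≤ (δ * N) * (P * S) := mul_le_mul_of_nonneg_right hδN hPS0.le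
    have h4 : δ * (P * S * N) = (δ * N) * (P * S) := by ring
    rw [h4]
    linarith
  have hB : 2 * P ≤ δ * (S - 1) := by
    have h1 : 7 * P ≤ (δ * N) * P := mul_le_mul_of_nonneg_right hδN hP0.le
    have h2 : δ * (S - 1) = (δ * N) * P - δ := by rw [hS]; ring
    rw [h2]
    linarith
  set d := ⌊P⌋₊ with hd
  set τ := ⌊S⌋₊ with hτ
  have hd1 : (d : ℝ) ≤ P := Nat.floor_le hP0.le
  have hd2 : P < d + 1 := Nat.lt_floor_add_one _
  have hdR : (1 : ℝ) < d := by linarith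
  have hd0' : (0 : ℝ) < d := by linarith
  have hd0 : 0 < d := by exact_mod_cast hd0'
  have hτ1 : (τ : ℝ) ≤ S := Nat.floor_le hS0.le
  have hτ2 : S < τ + 1 := Nat.lt_floor_add_one _
  have hτR : (1 : ℝ) < τ := by linarith
  have hτ0' : (0 : ℝ) < τ := by linarith
  have hτ0 : 0 < τ := by exact_mod_cast hτ0'
  have hlogd : (1 / 2 - δ) * Real.log n - 1 ≤ Real.log d := by
    have h1 : Real.log (P / 2) ≤ Real.log d := Real.log_le_log (by positivity) (by linarith)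
    rw [Real.log_div hP0.ne' two_ne_zero, hlogP] at h1
    have := Real.log_two_lt_d9
    linarith
  set Q : ℝ := (1 - δ) * (n / 2) with hQ
  have hQ0 : 0 ≤ Q := by
    rw [hQ]
    have : 0 < 1 - δ := by linarith
    positivity
  set g := ⌊Q / (2 * d)⌋₊ with hg
  set h := ⌊Q / (2 * d + τ)⌋₊ with hh
  have hg1 : (g : ℝ) * (2 * d) ≤ Q := by
    have := Nat.floor_le (show 0 ≤ Q / (2 * d) by positivity)
    rwa [le_div_iff₀ (by positivity)] at this
  have hg2 : Q - 2 * d ≤ (g : ℝ) * (2 * d) := by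
    have := (Nat.lt_floor_add_one (Q / (2 * d))).le
    rw [div_le_iff₀ (by positivity)] at this
    linarith
  have hh1 : (h : ℝ) * (2 * d + τ) ≤ Q := by
    have := Nat.floor_le (show 0 ≤ Q / (2 * d + τ) by positivity)
    rwa [le_div_iff₀ (by positivity)] at this
  have hh2 : Q - (2 * d + τ) ≤ (h : ℝ) * (2 * d + τ) := by
    have := (Nat.lt_floor_add_one (Q / (2 * d + τ))).le
    rw [div_le_iff₀ (by positivity)] at this
    linarith
  have hdτ : (τ : ℝ) * d ≤ P * S := by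
    have := mul_le_mul hd1 hτ1 hτ0'.le hP0.le
    linarith
  refine ⟨d, g, h, τ, hd0, hτ0, ?_, fun r cnt hcnt hr => ?_⟩
  · have h1 : ((g * (2 * d) + 2 * d + h * (2 * d + τ) + (2 * d + τ) + τ * (d + 1) : ℕ) : ℝ) ≤
        (n : ℝ) := by
      push_cast
      have e1 : (τ : ℝ) * (d + 1) = τ * d + τ := by ring
      rw [e1]
      have e2 : Q + Q = n - δ * n := by rw [hQ]; ring
      linarith
    exact_mod_cast h1
  -- lower bounds
  have hQn : Q = n / 2 - δ * (n / 2) := by rw [hQ]; ring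
  have hG : (1 - 2 * δ) * (n / 2) ≤ (g : ℝ) * (2 * d) := by
    have e1 : (1 - 2 * δ) * ((n : ℝ) / 2) = n / 2 - δ * n := by ring
    have e2 : 0 ≤ P * S := hPS0.le
    rw [e1]
    linarith
  have hH : (1 - 3 * δ) * (n / 2) ≤ (h : ℝ) * τ := by
    have e1 : 2 * (d : ℝ) ≤ δ * τ := by
      have : δ * (S - 1) ≤ δ * τ := mul_le_mul_of_nonneg_left (by linarith) hδ0.le
      linarith
    have e2 : (h : ℝ) * (2 * d) ≤ δ * (h * τ) := by
      have := mul_le_mul_of_nonneg_left e1 (show (0 : ℝ) ≤ h by positivity)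
      linarith
    have e3 : (h : ℝ) * τ ≤ h * (2 * d + τ) :=
      mul_le_mul_of_nonneg_left (by linarith) (by positivity)
    have e4 : (h : ℝ) * (2 * d) ≤ δ * Q :=
      e2.trans (mul_le_mul_of_nonneg_left (e3.trans hh1) hδ0.le)
    have e5 : Q - (2 * d + τ) ≤ h * τ + h * (2 * d) := by
      have : (h : ℝ) * (2 * d + τ) = h * τ + h * (2 * d) := by ring
      linarith
    have e6 : δ * Q ≤ δ * (n / 2) := by
      apply mul_le_mul_of_nonneg_left _ hδ0.le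
      rw [hQn]
      have : 0 ≤ δ * ((n : ℝ) / 2) := by positivity
      linarith
    have e7 : 2 * (d : ℝ) + τ ≤ δ * (n / 2) := by
      have : 0 ≤ P * S := hPS0.le
      linarith
    have e8 : (1 - 3 * δ) * ((n : ℝ) / 2) = n / 2 - 3 * (δ * (n / 2)) := by ring
    rw [e8]
    linarith
  have hcnt0 : 0 < cnt := by
    rcases Nat.eq_zero_or_pos cnt with h0 | h0
    · rw [h0, zero_mul] at hcnt
      exact absurd hcnt (not_le.2 (Nat.factorial_pos _))
    · exact h0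
  have hcnt0' : (0 : ℝ) < cnt := by exact_mod_cast hcnt0
  have hC : 2 * d * (Real.log d - 1) ≤ Real.log cnt := by
    have h1 : (((2 * d)! : ℕ) : ℝ) ≤ cnt * 2 ^ d := by exact_mod_cast hcnt
    have h2 := Real.log_le_log (by exact_mod_cast Nat.factorial_pos _) h1
    rw [Real.log_mul hcnt0'.ne' (by positivity), Real.log_pow] at h2
    have h3 := log_fact_lb (show 0 < 2 * d by omega)
    push_cast at h3
    rw [Real.log_mul two_ne_zero hd0'.ne'] at h3
    have h4 : 0 ≤ (d : ℝ) * Real.log 2 := mul_nonneg hd0'.le (Real.log_nonneg (by norm_num))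
    linarith
  have hr' : ((g * h * τ : ℕ) : ℝ) * Real.log cnt ≤ 3 * r * Real.log 2 := by
    have h1 : (cnt : ℝ) ^ (g * h * τ) ≤ 2 ^ (3 * r) := by exact_mod_cast hr
    have h2 := Real.log_le_log (by positivity) h1
    rw [Real.log_pow, Real.log_pow] at h2
    push_cast at h2 ⊢
    exact h2
  have hX : (1 / 2 - δ) * Real.log n - 2 ≤ Real.log d - 1 := by linarith
  have hX0 : 0 ≤ (1 / 2 - δ) * Real.log n - 2 := by linarith
  have h12 : 0 ≤ 1 - 2 * δ := by linarith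
  have h13 : 0 ≤ 1 - 3 * δ := by linarith
  have hchain : ((1 - 2 * δ) * (n / 2)) * ((1 - 3 * δ) * (n / 2)) *
      ((1 / 2 - δ) * Real.log n - 2) ≤ ((g * h * τ : ℕ) : ℝ) * Real.log cnt := by
    have e1 : ((1 - 2 * δ) * ((n : ℝ) / 2)) * ((1 - 3 * δ) * (n / 2)) ≤
        ((g : ℝ) * (2 * d)) * ((h : ℝ) * τ) := mul_le_mul hG hH (by positivity) (by positivity)
    have e2 := mul_le_mul e1 hX hX0 (by positivity)
    refine e2.trans ?_
    have e3 : ((g : ℝ) * (2 * d)) * ((h : ℝ) * τ) * (Real.log d - 1) =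
        ((g * h * τ : ℕ) : ℝ) * (2 * d * (Real.log d - 1)) := by push_cast; ring
    rw [e3]
    exact mul_le_mul_of_nonneg_left hC (by positivity)
  have hfin : 3 * c * Real.log n * (n : ℝ) ^ 2 ≤ 3 * r * Real.log 2 := by
    have e1 := mul_le_mul_of_nonneg_right hc (show (0 : ℝ) ≤ (n : ℝ) ^ 2 by positivity)
    have e2 : (1 - 2 * δ) * (1 - 3 * δ) / 4 * ((1 / 2 - δ) * Real.log n - 2) * (n : ℝ) ^ 2 =
        ((1 - 2 * δ) * (n / 2)) * ((1 - 3 * δ) * (n / 2)) *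
          ((1 / 2 - δ) * Real.log n - 2) := by ring
    rw [e2] at e1
    linarith
  have hlog2 : 0 < Real.log 2 := Real.log_pos (by norm_num)
  rw [Real.logb, mul_div_assoc', div_le_iff₀ hlog2]
  linarith

/-- M9. The choice of parameters. -/
theorem asym2 (c : ℝ) (hc : c < 1 / 24) : ∃ n₀ : ℕ, ∀ n ≥ n₀, ∃ d g h τ : ℕ,
    0 < d ∧ 0 < τ ∧
    g * (2 * d) + 2 * d + h * (2 * d + τ) + (2 * d + τ) + τ * (d + 1) ≤ n ∧
    ∀ r cnt : ℕ, (2 * d)! ≤ cnt * 2 ^ d → cnt ^ (g * h * τ) ≤ 2 ^ (3 * r) →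
      c * (n : ℝ) ^ 2 * Real.logb 2 n ≤ r := by
  -- choose `δ`
  obtain ⟨δ, hδ0, hδ1, hδc⟩ : ∃ δ : ℝ, 0 < δ ∧ δ < 1 / 3 ∧
      3 * c < (1 - 2 * δ) * (1 - 3 * δ) / 4 * (1 / 2 - δ) := by
    have hcont : Filter.Tendsto (fun δ : ℝ => (1 - 2 * δ) * (1 - 3 * δ) / 4 * (1 / 2 - δ))
        (nhdsWithin 0 (Set.Ioi 0))
        (nhds ((1 - 2 * 0) * (1 - 3 * 0) / 4 * (1 / 2 - 0))) := by
      apply Filter.Tendsto.mono_left _ nhdsWithin_le_nhds
      apply Continuous.tendsto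
      fun_prop
    have h1 := hcont.eventually (lt_mem_nhds
      (show 3 * c < (1 - 2 * 0) * (1 - 3 * 0) / 4 * (1 / 2 - 0) by linarith))
    have h2 : ∀ᶠ δ : ℝ in nhdsWithin 0 (Set.Ioi 0), δ < 1 / 3 :=
      nhdsWithin_le_nhds (gt_mem_nhds (by norm_num))
    obtain ⟨δ, ⟨h3, h4⟩, h5⟩ := ((h1.and h2).and self_mem_nhdsWithin).exists
    exact ⟨δ, h5, h4, h3⟩
  have h12 : 0 < 1 / 2 - δ := by linarith
  have h1 : Filter.Tendsto (fun n : ℕ => Real.log (n : ℝ)) Filter.atTop Filter.atTop :=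
    Real.tendsto_log_atTop.comp tendsto_natCast_atTop_atTop
  have hA : ∀ᶠ n : ℕ in Filter.atTop, 2 ≤ (n : ℝ) ^ (1 / 2 - δ) :=
    ((tendsto_rpow_atTop h12).comp tendsto_natCast_atTop_atTop).eventually_ge_atTop 2
  have hB : ∀ᶠ n : ℕ in Filter.atTop, 7 / δ ≤ (n : ℝ) ^ δ :=
    ((tendsto_rpow_atTop hδ0).comp tendsto_natCast_atTop_atTop).eventually_ge_atTop (7 / δ)
  have hC : ∀ᶠ x : ℝ in Filter.atTop, 2 ≤ (1 / 2 - δ) * x := by
    filter_upwards [Filter.eventually_ge_atTop (2 / (1 / 2 - δ))] with x hx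
    rw [div_le_iff₀ h12] at hx
    linarith
  have hD : ∀ᶠ x : ℝ in Filter.atTop, 3 * c * x ≤
      (1 - 2 * δ) * (1 - 3 * δ) / 4 * ((1 / 2 - δ) * x - 2) := by
    set K : ℝ := (1 - 2 * δ) * (1 - 3 * δ) / 4 with hK
    have hpos : 0 < K * (1 / 2 - δ) - 3 * c := by linarith
    filter_upwards [Filter.eventually_ge_atTop (2 * K / (K * (1 / 2 - δ) - 3 * c))] with x hx
    rw [div_le_iff₀ hpos] at hx
    linarith
  obtain ⟨n₀, hn₀⟩ := Filter.eventually_atTop.1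
    ((h1.eventually (hC.and hD)).and ((hA.and hB).and (Filter.eventually_gt_atTop 0)))
  refine ⟨n₀, fun n hn => ?_⟩
  obtain ⟨⟨a1, a2⟩, ⟨a3, a4⟩, a5⟩ := hn₀ n hn
  have hn0 : (0 : ℝ) < n := by exact_mod_cast a5
  refine asym2_core c δ ((n : ℝ) ^ (1 / 2 - δ)) ((n : ℝ) ^ (1 / 2 : ℝ)) ((n : ℝ) ^ δ)
    hδ0 hδ1 a3 a4 ?_ ?_ (Real.log_rpow hn0 _) a1 a2
  · rw [← Real.rpow_add hn0]
    congr 1
    ring
  · rw [← Real.rpow_add hn0, ← Real.rpow_add hn0]
    have : (1 / 2 - δ + 1 / 2 + δ : ℝ) = 1 := by ring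
    rw [this, Real.rpow_one]

end Pool.Agent.PerSL2
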