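import Pool.Agent.PerSL2.Pm
import Pool.Agent.PerSL2.Gl

/-!
# The core of the gadget
-/

set_option autoImplicit false

namespace Pool.Agent.PerSL2

open Finset
open scoped Nat

universe u

/-- `T = ∅`: the permanent of `[[θ W, 1], [1, 0]]`. -/
theorem core_empty {R : Type u} [CommRing R] {I J : Type} [Fintype I] [DecidableEq I]
    [Fintype J] [DecidableEq J] {Q : Type} [DecidableEq Q] {k : ℕ} (T : Finset Q) (hT : T = ∅)
    (W : I → J → R) (a : Q → I → R) (b : Q → J → R) :
    pm (glQ (I := Fin k) (k := k) T (coreW W) (fun q => coreB (b q))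
      (fun q _ => coreA (a q))) = 1 := by
  subst hT
  have e1 : IsEmpty ({q // q ∈ (∅ : Finset Q)} × Fin k) := by
    refine ⟨fun x => ?_⟩
    exact absurd x.1.2 (Finset.notMem_empty _)
  let eR : (I ⊕ J) ≃ (I ⊕ J) ⊕ ({q // q ∈ (∅ : Finset Q)} × Fin k) :=
    (Equiv.sumEmpty (I ⊕ J) ({q // q ∈ (∅ : Finset Q)} × Fin k)).symm
  let eC : (I ⊕ J) ≃ (J ⊕ I) ⊕ ({q // q ∈ (∅ : Finset Q)} × Fin k) :=
    (Equiv.sumComm I J).trans
      (Equiv.sumEmpty (J ⊕ I) ({q // q ∈ (∅ : Finset Q)} × Fin k)).symm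
  rw [← pm_reindex eR eC]
  rw [pm_block (ρ₁ := I) (ρ₂ := J) (κ₁ := I) (κ₂ := J) _ rfl (fun r c => rfl)]
  have h1 := pm_delta (ρ := I) (R := R)
  have h2 := pm_delta (ρ := J) (R := R)
  have h3 : (pm fun (r : I) (c : I) =>
      glQ (I := Fin k) (k := k) (∅ : Finset Q) (coreW W) (fun q => coreB (b q))
      (fun q _ => coreA (a q)) (eR (Sum.inl r)) (eC (Sum.inl c))) = 1 := by
    rw [← h1]; rfl
  have h4 : (pm fun (r : J) (c : J) =>
      glQ (I := Fin k) (k := k) (∅ : Finset Q) (coreW W) (fun q => coreB (b q))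
      (fun q _ => coreA (a q)) (eR (Sum.inr r)) (eC (Sum.inr c))) = 1 := by
    rw [← h2]; rfl
  rw [h3, h4, one_mul]

/-- The powers of `θ`. -/
theorem core_scale {R : Type u} [CommRing R] [IsDomain R] {I J : Type} [Fintype I]
    [DecidableEq I] [Fintype J] [DecidableEq J] {Q : Type} [DecidableEq Q] {k : ℕ}
    (T : Finset Q) (θ : R) (hθ : θ ≠ 0) (W : I → J → R) (a : Q → I → R) (b : Q → J → R) :
    pm (glQ (I := Fin k) (k := k) T (coreW (fun i c => θ * W i c)) (fun q => coreB (b q))
      (fun q _ => coreA (a q))) =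
    θ ^ (k * T.card) * pm (glQ (I := Fin k) (k := k) T (coreW W) (fun q => coreB (b q))
      (fun q _ => coreA (a q))) := by
  set A1 := glQ (I := Fin k) (k := k) T (coreW W) (fun q => coreB (b q))
      (fun q _ => coreA (a q)) with hA1
  set A2 := glQ (I := Fin k) (k := k) T (coreW (fun i c => θ * W i c)) (fun q => coreB (b q))
      (fun q _ => coreA (a q)) with hA2
  let ra : (I ⊕ J) ⊕ ({q // q ∈ T} × Fin k) → R :=
    Sum.elim (Sum.elim (fun _ => θ) (fun _ => 1)) (fun _ => θ)
  let cb : (J ⊕ I) ⊕ ({q // q ∈ T} × Fin k) → R :=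
    Sum.elim (Sum.elim (fun _ => 1) (fun _ => θ)) (fun _ => 1)
  have h1 := pm_scale A1 ra (fun _ => 1)
  have h2 := pm_scale A2 (fun _ => 1) cb
  have h3 : (fun r c => ra r * A1 r c * (1 : R)) = fun r c => (1 : R) * A2 r c * cb c := by
    funext r c
    rcases r with (i | j) | ⟨q, v⟩ <;> rcases c with (j' | i') | ⟨q', v'⟩ <;>
      simp [ra, cb, hA1, hA2, glQ, coreW, coreA, coreB]
    exact mul_comm _ _
  rw [h3] at h1
  rw [h2] at h1
  have h4 : ∏ r, ra r = θ ^ Fintype.card I * θ ^ (k * T.card) := by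
    simp [ra, Fintype.prod_sum_type, Finset.prod_const, Finset.card_univ, mul_comm k]
  have h5 : ∏ c, cb c = θ ^ Fintype.card I := by
    simp [cb, Fintype.prod_sum_type, Finset.prod_const, Finset.card_univ]
  rw [h4, h5] at h1
  simp only [Finset.prod_const_one, one_mul, mul_one] at h1
  have h6 : θ ^ Fintype.card I ≠ 0 := pow_ne_zero _ hθ
  apply mul_left_cancel₀ h6
  rw [h1]; ring

/-- One active selector. -/
theorem core_single {R : Type u} [CommRing R] {I J : Type} [Fintype I] [DecidableEq I]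
    [Fintype J] [DecidableEq J] {Q : Type} [DecidableEq Q] {k : ℕ} (T : Finset Q) (q : Q)
    (hT : T = {q}) (W : I → J → R) (a : Q → I → R) (b : Q → J → R) :
    pm (glQ (I := Fin k) (k := k) T (coreW W) (fun q => coreB (b q))
      (fun q _ => coreA (a q))) = pm (one k W (a q) (b q)) := by
  subst hT
  let e0 : Fin k ≃ ({q' // q' ∈ ({q} : Finset Q)} × Fin k) :=
    { toFun := fun v => (⟨q, Finset.mem_singleton_self q⟩, v)
      invFun := fun x => x.2
      left_inv := fun v => rfl
      right_inv := by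
        rintro ⟨⟨q', hq'⟩, v⟩
        obtain rfl := Finset.mem_singleton.mp hq'
        rfl }
  let eR : (I ⊕ J) ⊕ Fin k ≃ (I ⊕ J) ⊕ ({q' // q' ∈ ({q} : Finset Q)} × Fin k) :=
    Equiv.sumCongr (Equiv.refl _) e0
  let eC : (J ⊕ I) ⊕ Fin k ≃ (J ⊕ I) ⊕ ({q' // q' ∈ ({q} : Finset Q)} × Fin k) :=
    Equiv.sumCongr (Equiv.refl _) e0
  rw [← pm_reindex eR eC]
  congr 1
  funext r c
  rcases r with (i | j) | v <;> rcases c with (j' | i') | v' <;> rfl

theorem core_exp {K R : Type u} [Field K] [CommRing R] [IsDomain R] [Algebra K R] {I J : Type}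
    [Fintype I] [DecidableEq I] [Fintype J] [DecidableEq J] {τ k : ℕ} (hk : 0 < k) {η : K}
    (hη : IsPrimitiveRoot η k) (θ : R) (hθ : θ ≠ 0) (W : I → J → R) (a : Fin τ → I → R)
    (b : Fin τ → J → R) :
    ∃ Z : R, pm (glM (Q := Fin τ) (I := Fin k) (k := k) η (coreW (fun i c => θ * W i c))
        (fun q => coreB (b q)) (fun q _ => coreA (a q))) =
      algebraMap K R ((-1) ^ τ * (k ! : K) ^ τ) +
      θ ^ k * (algebraMap K R ((-1) ^ (τ - 1) * (k ! : K) ^ (τ - 1)) *
        ∑ q, pm (one k W (a q) (b q))) + θ ^ (k + 1) * Z := by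
  rw [gl (Fintype.card_fin k) hk hη]
  have key : ∀ T : Finset (Fin τ), ∃ Z : R,
      algebraMap K R ((-1) ^ (univ \ T).card * (k ! : K) ^ (univ \ T).card) *
        pm (glQ (I := Fin k) (k := k) T (coreW (fun i c => θ * W i c))
          (fun q => coreB (b q)) (fun q _ => coreA (a q))) =
      (if T = ∅ then algebraMap K R ((-1) ^ τ * (k ! : K) ^ τ) else 0) +
      (∑ q, if T = {q} then θ ^ k *
        (algebraMap K R ((-1) ^ (τ - 1) * (k ! : K) ^ (τ - 1)) *
          pm (one k W (a q) (b q))) else 0) + θ ^ (k + 1) * Z := by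
    intro T
    rcases Nat.lt_or_ge T.card 2 with hT | hT
    · have hT' : T.card = 0 ∨ T.card = 1 := by omega
      rcases hT' with h0 | h1
      · have hT0 : T = ∅ := Finset.card_eq_zero.mp h0
        refine ⟨0, ?_⟩
        rw [core_empty T hT0]
        subst hT0
        have : ∀ q : Fin τ, ¬ ((∅ : Finset (Fin τ)) = {q}) := fun q h =>
          (Finset.singleton_ne_empty q) h.symm
        simp [this]
      · obtain ⟨q, hq⟩ := Finset.card_eq_one.mp h1
        refine ⟨0, ?_⟩
        rw [core_scale T θ hθ, core_single T q hq, h1]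
        subst hq
        have hne : ¬ (({q} : Finset (Fin τ)) = ∅) := Finset.singleton_ne_empty q
        have hs : (univ \ ({q} : Finset (Fin τ))).card = τ - 1 := by
          rw [Finset.card_sdiff_of_subset (Finset.subset_univ _)]; simp
        simp only [hne, if_false, Finset.singleton_inj, hs]
        rw [Finset.sum_ite_eq]
        simp
        ring
    · refine ⟨algebraMap K R ((-1) ^ (univ \ T).card * (k ! : K) ^ (univ \ T).card) *
        (θ ^ (k * T.card - (k + 1)) * pm (glQ (I := Fin k) (k := k) T (coreW W)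
          (fun q => coreB (b q)) (fun q _ => coreA (a q)))), ?_⟩
      rw [core_scale T θ hθ]
      have hne : ¬ (T = ∅) := by
        rintro rfl; simp at hT
      have hne1 : ∀ q, ¬ (T = {q}) := by
        rintro q rfl; simp at hT
      have hle : k + 1 ≤ k * T.card := by nlinarith
      have hp : θ ^ (k * T.card) = θ ^ (k + 1) * θ ^ (k * T.card - (k + 1)) := by
        rw [← pow_add]; congr 1; omega
      simp only [hne, hne1, if_false, Finset.sum_const_zero, zero_add, hp]
      ring
  choose Z hZ using key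
  refine ⟨∑ T, Z T, ?_⟩
  rw [Finset.sum_congr rfl (fun T _ => hZ T)]
  rw [Finset.sum_add_distrib, Finset.sum_add_distrib, Finset.sum_comm, ← Finset.mul_sum]
  simp only [Finset.sum_ite_eq', Finset.mem_univ, if_true]
  rw [← Finset.mul_sum, ← Finset.mul_sum]

end Pool.Agent.PerSL2
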