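import Pool.Agent.H10.PerSL.Basic

/-!
# The approximative complexity of the permanent is at least `c n² log n`: definitions
-/

set_option autoImplicit false

namespace Pool.Agent.PerSL2

open Finset
open scoped Nat

universe u

/-- the permanent of a square array whose rows and columns have different index types -/
def pm {ρ κ : Type} {R : Type u} [Fintype ρ] [DecidableEq ρ] [Fintype κ] [DecidableEq κ]
    [CommRing R] (A : ρ → κ → R) : R := ∑ σ : κ ≃ ρ, ∏ c, A (σ c) c

/-! ### the general gadget -/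

/-- The general gadget: `k` rows `(q, i)` and `k` columns `(q, v)` for every `q`. -/
def glM {K R : Type u} [Field K] [CommRing R] [Algebra K R] {Q I ρ κ : Type} [DecidableEq Q]
    {k : ℕ} (η : K) (W : ρ → κ → R) (b : Q → ρ → R) (N : Q → I → κ → R) :
    ρ ⊕ (Q × I) → κ ⊕ (Q × Fin k) → R
  | Sum.inl r, Sum.inl c => W r c
  | Sum.inl r, Sum.inr (q, _) => b q r
  | Sum.inr (q, i), Sum.inl c => N q i c
  | Sum.inr (q, _), Sum.inr (q', v) => if q = q' then -(algebraMap K R (η ^ (v : ℕ))) else 0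

/-- The part of the gadget in which exactly the `q ∈ T` are active. -/
def glQ {R : Type u} [CommRing R] {Q I ρ κ : Type} {k : ℕ} (T : Finset Q)
    (W : ρ → κ → R) (b : Q → ρ → R) (N : Q → I → κ → R) :
    ρ ⊕ ({q // q ∈ T} × I) → κ ⊕ ({q // q ∈ T} × Fin k) → R
  | Sum.inl r, Sum.inl c => W r c
  | Sum.inl r, Sum.inr (q, _) => b q r
  | Sum.inr (q, i), Sum.inl c => N q i c
  | Sum.inr _, Sum.inr _ => 0

/-- The sheets: one whole sheet `(s, ·)` can be released, with the help of `m` rows `U`. -/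
def shM {K R : Type u} [Field K] [CommRing R] [Algebra K R] {S I ρ κ : Type} [DecidableEq S]
    {m : ℕ} (ζ : K) (N : S → I → κ → R) (u : κ → R) (W : ρ → κ → R) :
    (Fin m ⊕ ρ) ⊕ (S × I) → κ ⊕ (S × Fin m) → R :=
  glM ζ (fun r c => Sum.elim (fun _ => u c) (fun r' => W r' c) r)
    (fun _ r => Sum.elim (fun _ => 1) (fun _ => 0) r) N

/-! ### the core -/

/-- rows: `i` (variables) and `κ'_c`; columns: `c` (variables) and `κ_i` -/
def coreW {R : Type u} [CommRing R] {I J : Type} [DecidableEq I] [DecidableEq J]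
    (W : I → J → R) : I ⊕ J → J ⊕ I → R
  | Sum.inl i, Sum.inl c => W i c
  | Sum.inl i, Sum.inr i' => if i = i' then 1 else 0
  | Sum.inr c, Sum.inl c' => if c = c' then 1 else 0
  | Sum.inr _, Sum.inr _ => 0

def coreB {R : Type u} [CommRing R] {I J : Type} (b : J → R) : I ⊕ J → R :=
  Sum.elim (fun _ => 0) b

def coreA {R : Type u} [CommRing R] {I J : Type} (a : I → R) : J ⊕ I → R :=
  Sum.elim (fun _ => 0) a

/-- the core with one active selector -/
def one {R : Type u} [CommRing R] {I J : Type} [DecidableEq I] [DecidableEq J] (k : ℕ)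
    (W : I → J → R) (a : I → R) (b : J → R) : (I ⊕ J) ⊕ Fin k → (J ⊕ I) ⊕ Fin k → R
  | Sum.inl r, Sum.inl c => coreW W r c
  | Sum.inl r, Sum.inr _ => coreB b r
  | Sum.inr _, Sum.inl c => coreA a c
  | Sum.inr _, Sum.inr _ => 0

/-- the variables, weighted: row `i`, column `c = i + p` carries `t ^ (p ^ 2) * y i p` -/
def wy {R : Type u} [CommRing R] {m τ : ℕ} (t : R) (y : Fin m → Fin τ → R) (i : Fin m)
    (c : Fin (m + τ)) : R :=
  if h : (i : ℕ) ≤ c ∧ (c : ℕ) - i < τ then t ^ (((c : ℕ) - i) ^ 2) * y i ⟨(c : ℕ) - i, h.2⟩ else 0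

/-- entries allowed in the gadget -/
def Entry {V : Type} {K : Type u} [Field K] (p : MvPolynomial V (PowerSeries K)) : Prop :=
  (∃ s, p = MvPolynomial.C s) ∨ ∃ s v, p = MvPolynomial.C s * MvPolynomial.X v

/-- the direct sum of elementary symmetric polynomials of degree `k` -/
noncomputable def dsum (Ω I : Type) [Fintype Ω] [Fintype I] (R : Type u) [CommRing R] (k : ℕ) :
    MvPolynomial (Ω × I) R :=
  ∑ ω : Ω, Pool.Agent.H10.PerSL.es (univ : Finset I) k (fun i => MvPolynomial.X (ω, i))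

end Pool.Agent.PerSL2
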