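import Pool.Agent.PerSL2.Pm
import Pool.Agent.PerSL2.Sheet
import Pool.Agent.PerSL2.Core
import Pool.Agent.PerSL2.Iso

/-!
The full gadget.
-/

set_option autoImplicit false

namespace Pool.Agent.PerSL2

open Finset MvPolynomial
open scoped Nat
open Pool.Agent.H10.PerSL (es)

universe u

section defs

variable {K : Type u} [Field K] {R : Type u} [CommRing R] [Algebra K R] {h τ m k : ℕ}

/-- released columns of the sheet `l` -/
def fN (θ t : R) (y : Fin h → Fin m → Fin τ → R) (l : Fin h) (c : Fin (m + τ)) :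
    Fin m ⊕ (Fin (m + τ) ⊕ (Fin τ × Fin k)) → R
  | Sum.inl i => θ * wy t (y l) i c
  | Sum.inr (Sum.inl c') => if c = c' then 1 else 0
  | Sum.inr (Sum.inr _) => 0

/-- the columns `U'` -/
def fu : Fin m ⊕ (Fin (m + τ) ⊕ (Fin τ × Fin k)) → R
  | Sum.inl _ => 0
  | Sum.inr (Sum.inl _) => 1
  | Sum.inr (Sum.inr _) => 0

/-- the class columns and the selector columns -/
def fW (η : K) (a : Fin τ → Fin m → R) (b : Fin τ → Fin (m + τ) → R) :
    Fin m ⊕ (Fin τ × Fin k) → Fin m ⊕ (Fin (m + τ) ⊕ (Fin τ × Fin k)) → R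
  | Sum.inl i', Sum.inl i => if i = i' then 1 else 0
  | Sum.inl _, Sum.inr (Sum.inl _) => 0
  | Sum.inl i', Sum.inr (Sum.inr (q, _)) => a q i'
  | Sum.inr _, Sum.inl _ => 0
  | Sum.inr (q, _), Sum.inr (Sum.inl c) => b q c
  | Sum.inr (q, v), Sum.inr (Sum.inr (q', _)) =>
      if q' = q then -(algebraMap K R (η ^ (v : ℕ))) else 0

/-- the transposed matrix with the column sheets -/
def fT (ξ η : K) (θ t : R) (a : Fin τ → Fin m → R) (b : Fin τ → Fin (m + τ) → R)
    (y : Fin h → Fin m → Fin τ → R) :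
    (Fin (m + τ) ⊕ (Fin m ⊕ (Fin τ × Fin k))) ⊕ (Fin h × Fin (m + τ)) →
      (Fin m ⊕ (Fin (m + τ) ⊕ (Fin τ × Fin k))) ⊕ (Fin h × Fin (m + τ)) → R :=
  shM ξ (fN θ t y) fu (fW η a b)

/-- the rows `U` -/
def fx : (Fin (m + τ) ⊕ (Fin m ⊕ (Fin τ × Fin k))) ⊕ (Fin h × Fin (m + τ)) → R
  | Sum.inl (Sum.inl _) => 0
  | Sum.inl (Sum.inr (Sum.inl _)) => 1
  | Sum.inl (Sum.inr (Sum.inr _)) => 0
  | Sum.inr _ => 0

/-- position of the other rows -/
def emb : (Fin (m + τ) ⊕ (Fin τ × Fin k)) ⊕ (Fin h × Fin (m + τ)) →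
    (Fin m ⊕ (Fin (m + τ) ⊕ (Fin τ × Fin k))) ⊕ (Fin h × Fin (m + τ))
  | Sum.inl x => Sum.inl (Sum.inr x)
  | Sum.inr x => Sum.inr x

/-- the full matrix -/
def fA {g : ℕ} (ζ ξ η : K) (θ t : R) (a : Fin τ → Fin m → R) (b : Fin τ → Fin (m + τ) → R)
    (y : Fin g → Fin h → Fin m → Fin τ → R) :
    (Fin m ⊕ ((Fin (m + τ) ⊕ (Fin τ × Fin k)) ⊕ (Fin h × Fin (m + τ)))) ⊕ (Fin g × Fin m) →
      ((Fin (m + τ) ⊕ (Fin m ⊕ (Fin τ × Fin k))) ⊕ (Fin h × Fin (m + τ))) ⊕ (Fin g × Fin m) → R :=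
  shM ζ (fun s i c => fT (k := k) ξ η θ t a b (y s) c (Sum.inl (Sum.inl i))) fx
    (fun r c => fT (k := k) ξ η θ t a b 0 c (emb r))

end defs

section pms

variable {K : Type u} [Field K] {R : Type u} [CommRing R] [Algebra K R] {g h τ m k : ℕ}

theorem fT_emb (ξ η : K) (θ t : R) (a : Fin τ → Fin m → R) (b : Fin τ → Fin (m + τ) → R)
    (y : Fin h → Fin m → Fin τ → R) (c) (r) :
    fT (k := k) ξ η θ t a b y c (emb r) = fT (k := k) ξ η θ t a b 0 c (emb r) := by
  rcases c with (c | c | c) | ⟨l, c⟩ <;> rcases r with (r | r) | r <;>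
    simp [fT, shM, glM, emb, fN]

theorem released_row (ξ η : K) (θ t : R) (a : Fin τ → Fin m → R) (b : Fin τ → Fin (m + τ) → R)
    (y : Fin h → Fin m → Fin τ → R) :
    pm (fun (r : Fin m ⊕ ((Fin (m + τ) ⊕ (Fin τ × Fin k)) ⊕ (Fin h × Fin (m + τ)))) c =>
      Sum.elim (fun i => fT (k := k) ξ η θ t a b y c (Sum.inl (Sum.inl i)))
        (fun r' => fT (k := k) ξ η θ t a b 0 c (emb r')) r) =
    pm (fT (k := k) ξ η θ t a b y) := by
  have h1 : (fun (r : Fin m ⊕ ((Fin (m + τ) ⊕ (Fin τ × Fin k)) ⊕ (Fin h × Fin (m + τ)))) c =>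
      Sum.elim (fun i => fT (k := k) ξ η θ t a b y c (Sum.inl (Sum.inl i)))
        (fun r' => fT (k := k) ξ η θ t a b 0 c (emb r')) r) =
      fun r c => (fun r' c' => fT (k := k) ξ η θ t a b y c' r')
        ((Equiv.sumAssoc (Fin m) (Fin (m + τ) ⊕ (Fin τ × Fin k)) (Fin h × Fin (m + τ))).symm r)
        ((Equiv.refl _) c) := by
    funext r c
    rcases r with i | (r | r)
    · rfl
    · exact (fT_emb ξ η θ t a b y c (Sum.inl r)).symm
    · exact (fT_emb ξ η θ t a b y c (Sum.inr r)).symm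
  rw [h1]
  exact (pm_reindex ((Equiv.sumAssoc (Fin m) (Fin (m + τ) ⊕ (Fin τ × Fin k))
    (Fin h × Fin (m + τ))).symm) (Equiv.refl _)
    (fun r' c' => fT (k := k) ξ η θ t a b y c' r')).trans (pm_transpose _)

theorem released_col (η : K) (θ t : R) (a : Fin τ → Fin m → R)
    (b : Fin τ → Fin (m + τ) → R) (y : Fin h → Fin m → Fin τ → R) (l : Fin h) :
    pm (fun (r : Fin (m + τ) ⊕ (Fin m ⊕ (Fin τ × Fin k))) c =>
      Sum.elim (fun c₀ => fN (k := k) θ t y l c₀ c) (fun r' => fW η a b r' c) r) =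
    pm (glM (Q := Fin τ) (I := Fin k) (k := k) η (coreW (fun i c => θ * wy t (y l) i c))
        (fun q => coreB (b q)) (fun q _ => coreA (a q))) := by
  rw [← pm_transpose (glM (Q := Fin τ) (I := Fin k) (k := k) η
    (coreW (fun i c => θ * wy t (y l) i c)) (fun q => coreB (b q)) (fun q _ => coreA (a q)))]
  rw [← pm_reindex (Equiv.sumAssoc (Fin (m + τ)) (Fin m) (Fin τ × Fin k))
    (Equiv.sumAssoc (Fin m) (Fin (m + τ)) (Fin τ × Fin k))]
  congr 1
  funext r c
  rcases r with (r | r) | ⟨q, v⟩ <;> rcases c with (c | c) | ⟨q', v'⟩ <;>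
    simp [fN, fW, glM, coreW, coreA, coreB, eq_comm]

end pms

section final

variable {K : Type u} [Field K] {V : Type}

theorem pm_const {ρ κ : Type} [Fintype ρ] [DecidableEq ρ] [Fintype κ] [DecidableEq κ]
    (A : ρ → κ → MvPolynomial V (PowerSeries K)) (h : ∀ r c, ∃ s, A r c = C s) :
    ∃ s, pm A = C s := by
  choose s hs using h
  refine ⟨pm s, ?_⟩
  have := pm_map (C : PowerSeries K →+* MvPolynomial V (PowerSeries K)) s
  rw [this]
  congr 1
  funext r c
  exact hs r c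

theorem Entry_zero : Entry (0 : MvPolynomial V (PowerSeries K)) := Or.inl ⟨0, by simp⟩

theorem Entry_one : Entry (1 : MvPolynomial V (PowerSeries K)) := Or.inl ⟨1, by simp⟩

theorem const_X_pow (n : ℕ) :
    ((C PowerSeries.X : MvPolynomial V (PowerSeries K))) ^ n = C (PowerSeries.X ^ n) := by
  rw [map_pow]

theorem const_alg (x : K) :
    algebraMap K (MvPolynomial V (PowerSeries K)) x = C (PowerSeries.C x) := by
  rw [MvPolynomial.algebraMap_apply]
  rfl

theorem full_gadget [CharZero K] {g h τ m k : ℕ} (hm : 0 < m)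
    (hτ : 0 < τ) (hk : 0 < k) {ζ ξ η : K} (hζ : IsPrimitiveRoot ζ m)
    (hξ : IsPrimitiveRoot ξ (m + τ)) (hη : IsPrimitiveRoot η k) :
    ∃ (Row Col : Type) (_ : Fintype Row) (_ : DecidableEq Row) (_ : Fintype Col)
      (_ : DecidableEq Col)
      (A : Row → Col → MvPolynomial ((Fin g × Fin h × Fin τ) × Fin m) (PowerSeries K))
      (s₀ : PowerSeries K) (c₁ : K) (L : ℕ)
      (Z : MvPolynomial ((Fin g × Fin h × Fin τ) × Fin m) (PowerSeries K)),
      Fintype.card Row = g * m + m + h * (m + τ) + (m + τ) + τ * k ∧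
      Fintype.card Col = g * m + m + h * (m + τ) + (m + τ) + τ * k ∧
      (∀ r c, Entry (A r c)) ∧ c₁ ≠ 0 ∧
      pm A = C s₀ + C (PowerSeries.X ^ L) *
        (C (PowerSeries.C c₁) * dsum (Fin g × Fin h × Fin τ) (Fin m) (PowerSeries K) k) +
        C (PowerSeries.X ^ (L + 1)) * Z := by
  classical
  set R := MvPolynomial ((Fin g × Fin h × Fin τ) × Fin m) (PowerSeries K) with hR
  set t : R := C PowerSeries.X with ht
  have ht0 : t ≠ 0 := by
    rw [ht, Ne, ← C_0, (C_injective _ _).eq_iff]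
    exact PowerSeries.X_ne_zero
  set B : ℕ := 2 * τ * (m + τ) with hB
  set N₀ : ℕ := k * B + 1 with hN₀
  set θ : R := t ^ N₀ with hθ
  have hθ0 : θ ≠ 0 := pow_ne_zero _ ht0
  set a : Fin τ → Fin m → R := fun q i => t ^ ((q : ℕ) ^ 2 + 2 * q * i) with ha
  set b : Fin τ → Fin (m + τ) → R := fun q c => t ^ (B - 2 * q * c) with hb
  set y : Fin g → Fin h → Fin m → Fin τ → R := fun s l i q => X ((s, l, q), i) with hy
  -- the released core
  have hcore : ∀ s l, ∃ Z : R, pm (glM (Q := Fin τ) (I := Fin k) (k := k) η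
      (coreW (fun i c => θ * wy t (y s l) i c))
        (fun q => coreB (b q)) (fun q _ => coreA (a q))) =
      algebraMap K R ((-1) ^ τ * (k ! : K) ^ τ) +
      t ^ (N₀ * k + k * B) * (algebraMap K R ((-1) ^ (τ - 1) * (k ! : K) ^ (τ - 1) *
        (k ! : K) ^ 2) * ∑ q, es univ k (fun i => y s l i q)) +
      t ^ (N₀ * k + k * B + 1) * Z := by
    intro s l
    obtain ⟨Z, hZ⟩ := core_exp hk hη θ hθ0 (wy t (y s l)) a b
    have hiso : ∀ q, ∃ Z : R, pm (one k (wy t (y s l)) (a q) (b q)) =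
        t ^ (k * B) * ((k ! : R) ^ 2 * es univ k (fun i => y s l i q)) +
          t ^ (k * B + 1) * Z := fun q => iso k t ht0 B le_rfl (y s l) q
    choose Z' hZ' using hiso
    refine ⟨algebraMap K R ((-1) ^ (τ - 1) * (k ! : K) ^ (τ - 1)) * ∑ q, Z' q + Z, ?_⟩
    rw [hZ, Finset.sum_congr rfl (fun q _ => hZ' q), Finset.sum_add_distrib,
      ← Finset.mul_sum, ← Finset.mul_sum, ← Finset.mul_sum]
    have e1 : θ ^ k = t ^ (N₀ * k) := by rw [hθ, ← pow_mul]
    have e2 : θ ^ (k + 1) = t ^ (N₀ * k + k * B + 1) := by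
      have : N₀ * (k + 1) = N₀ * k + k * B + 1 := by rw [hN₀]; ring
      rw [hθ, ← pow_mul, this]
    have e3 : (k ! : R) = algebraMap K R (k ! : K) := by simp
    rw [e1, e2, e3]
    simp only [map_mul, map_pow, map_neg, map_one]
    ring
  choose Zc hZc using hcore
  -- the column sheets
  have hcol : ∀ s, pm (fT (k := k) ξ η θ t a b (y s)) =
      algebraMap K R ((-1) ^ h * ((m + τ)! : K) ^ h) *
        pm (fun (r : Fin (m + τ) ⊕ (Fin m ⊕ (Fin τ × Fin k)))
          (c : Fin m ⊕ (Fin (m + τ) ⊕ (Fin τ × Fin k))) =>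
            Sum.elim (fun _ => (fu c : R)) (fun r' => fW η a b r' c) r) +
      algebraMap K R ((-1) ^ (h - 1) * ((m + τ)! : K) ^ h) *
        ∑ l, pm (glM (Q := Fin τ) (I := Fin k) (k := k) η
          (coreW (fun i c => θ * wy t (y s l) i c))
            (fun q => coreB (b q)) (fun q _ => coreA (a q))) := by
    intro s
    have h1 := sheet (m := m + τ) (S := Fin h) (I := Fin (m + τ)) (by simp) (by omega) hξ
      (fN (k := k) θ t (y s)) (fu (k := k) (R := R)) (fW (k := k) η a b)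
    rw [Fintype.card_fin] at h1
    unfold fT
    rw [h1]
    congr 2
    exact Finset.sum_congr rfl fun l _ => released_col η θ t a b (y s) l
  -- the row sheets
  have hrow := sheet (m := m) (S := Fin g) (I := Fin m) (by simp) hm hζ
      (fun s i c => fT (k := k) ξ η θ t a b (y s) c (Sum.inl (Sum.inl i))) fx
    (fun r c => fT (k := k) ξ η θ t a b 0 c (emb r))
  rw [Fintype.card_fin] at hrow
  have hrow2 : ∀ s, pm (fun (r : Fin m ⊕ ((Fin (m + τ) ⊕ (Fin τ × Fin k)) ⊕
      (Fin h × Fin (m + τ)))) c => Sum.elim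
        (fun i => fT (k := k) ξ η θ t a b (y s) c (Sum.inl (Sum.inl i)))
        (fun r' => fT (k := k) ξ η θ t a b 0 c (emb r')) r) =
      pm (fT (k := k) ξ η θ t a b (y s)) := fun s => released_row ξ η θ t a b (y s)
  rw [Finset.sum_congr rfl (fun s _ => (hrow2 s).trans (hcol s))] at hrow
  -- the constants
  have hcW : ∀ r c, ∃ s, (fW (k := k) η a b r c : R) = C s := by
    intro r c
    rcases r with i' | ⟨q, v⟩ <;> rcases c with i | c | ⟨q', v'⟩
    · simp only [fW]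
      split_ifs
      · exact ⟨1, by simp⟩
      · exact ⟨0, by simp⟩
    · exact ⟨0, by simp [fW]⟩
    · exact ⟨_, by simp only [fW, ha, ht]; exact (map_pow C _ _).symm⟩
    · exact ⟨0, by simp [fW]⟩
    · exact ⟨_, by simp only [fW, hb, ht]; exact (map_pow C _ _).symm⟩
    · simp only [fW]
      split_ifs
      · exact ⟨-(PowerSeries.C (η ^ (v : ℕ))), by rw [const_alg, map_neg]⟩
      · exact ⟨0, by simp⟩
  have hcu : ∀ c, ∃ s, (fu (k := k) (m := m) (τ := τ) c : R) = C s := by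
    intro c
    rcases c with i | c | ⟨q', v'⟩
    · exact ⟨0, by simp [fu]⟩
    · exact ⟨1, by simp [fu]⟩
    · exact ⟨0, by simp [fu]⟩
  have hc1 : ∃ s, pm (fun (r : Fin (m + τ) ⊕ (Fin m ⊕ (Fin τ × Fin k)))
          (c : Fin m ⊕ (Fin (m + τ) ⊕ (Fin τ × Fin k))) =>
            Sum.elim (fun _ => (fu c : R)) (fun r' => fW η a b r' c) r) = C s := by
    apply pm_const
    intro r c
    rcases r with r | r
    · exact hcu c
    · exact hcW r c
  have hcT : ∀ c r, ∃ s, (fT (k := k) (h := h) ξ η θ t a b 0 c (emb r) : R) = C s := by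
    intro c r
    rcases c with (c | c) | ⟨l, c⟩ <;> rcases r with r | ⟨l', v⟩
    · exact hcu _
    · exact ⟨1, by simp [fT, shM, glM, emb]⟩
    · exact hcW _ _
    · exact ⟨0, by simp [fT, shM, glM, emb]⟩
    · rcases r with r | r
      · simp only [fT, shM, glM, emb, fN]
        split_ifs
        · exact ⟨1, by simp⟩
        · exact ⟨0, by simp⟩
      · exact ⟨0, by simp [fT, shM, glM, emb, fN]⟩
    · simp only [fT, shM, glM, emb]
      split_ifs
      · exact ⟨-(PowerSeries.C (ξ ^ (v : ℕ))), by rw [const_alg, map_neg]⟩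
      · exact ⟨0, by simp⟩
  have hcx : ∀ c, ∃ s, (fx (k := k) (m := m) (τ := τ) (h := h) c : R) = C s := by
    intro c
    rcases c with (c | c | c) | c
    · exact ⟨0, by simp [fx]⟩
    · exact ⟨1, by simp [fx]⟩
    · exact ⟨0, by simp [fx]⟩
    · exact ⟨0, by simp [fx]⟩
  have hc2 : ∃ s, pm (fun (r : Fin m ⊕ ((Fin (m + τ) ⊕ (Fin τ × Fin k)) ⊕
      (Fin h × Fin (m + τ)))) c => Sum.elim (fun _ => (fx c : R))
        (fun r' => fT (k := k) ξ η θ t a b 0 c (emb r')) r) = C s := by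
    apply pm_const
    intro r c
    rcases r with r | r
    · exact hcx c
    · exact hcT c r
  obtain ⟨s1, hs1⟩ := hc1
  obtain ⟨s2, hs2⟩ := hc2
  rw [hs1, hs2] at hrow
  simp only [hZc] at hrow
  refine ⟨_, _, inferInstance, inferInstance, inferInstance, inferInstance,
    fA (g := g) (k := k) ζ ξ η θ t a b y, ?_, ?_, N₀ * k + k * B, ?_, ?_, ?_, ?_, ?_, ?_⟩
  · exact PowerSeries.C ((-1) ^ g * (m ! : K) ^ g) * s2 +
      PowerSeries.C ((-1) ^ (g - 1) * (m ! : K) ^ g) * ((g : PowerSeries K) *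
        (PowerSeries.C ((-1) ^ h * ((m + τ)! : K) ^ h) * s1 +
          PowerSeries.C ((-1) ^ (h - 1) * ((m + τ)! : K) ^ h) * ((h : PowerSeries K) *
            PowerSeries.C ((-1) ^ τ * (k ! : K) ^ τ))))
  · exact ((-1) ^ (g - 1) * (m ! : K) ^ g) * (((-1) ^ (h - 1) * ((m + τ)! : K) ^ h) *
      ((-1) ^ (τ - 1) * (k ! : K) ^ (τ - 1) * (k ! : K) ^ 2))
  · exact C (PowerSeries.C ((-1) ^ (g - 1) * (m ! : K) ^ g)) *
      (C (PowerSeries.C ((-1) ^ (h - 1) * ((m + τ)! : K) ^ h)) * ∑ s, ∑ l, Zc s l)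
  · simp only [Fintype.card_sum, Fintype.card_prod, Fintype.card_fin]
    ring
  · simp only [Fintype.card_sum, Fintype.card_prod, Fintype.card_fin]
    ring
  · intro r c
    rcases r with (r | r) | ⟨s, i⟩ <;> rcases c with c | ⟨s', v⟩
    · exact Or.inl (hcx c)
    · exact Entry_one
    · exact Or.inl (hcT c r)
    · exact Entry_zero
    · change Entry (fT (k := k) ξ η θ t a b (y s) c (Sum.inl (Sum.inl i)))
      rcases c with (c | c) | ⟨l, c⟩
      · exact Or.inl (hcu (Sum.inl i))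
      · exact Or.inl (hcW c (Sum.inl i))
      · change Entry (θ * wy t (y s l) i c)
        unfold wy
        split_ifs with hh
        · right
          refine ⟨PowerSeries.X ^ N₀ * PowerSeries.X ^ (((c : ℕ) - i) ^ 2),
            ((s, l, ⟨(c : ℕ) - i, hh.2⟩), i), ?_⟩
          rw [hθ, ht, hy, map_mul, map_pow, map_pow, mul_assoc]
        · rw [mul_zero]; exact Entry_zero
    · change Entry (if s = s' then -(algebraMap K R (ζ ^ (v : ℕ))) else 0)
      split_ifs
      · exact Or.inl ⟨-(PowerSeries.C (ζ ^ (v : ℕ))), by rw [const_alg, map_neg]⟩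
      · exact Entry_zero
  · have hf : ∀ n : ℕ, ((n ! : ℕ) : K) ≠ 0 := fun n => Nat.cast_ne_zero.2 (Nat.factorial_ne_zero n)
    have hs : ∀ n : ℕ, ((-1 : K)) ^ n ≠ 0 := fun n => pow_ne_zero _ (neg_ne_zero.2 one_ne_zero)
    exact mul_ne_zero (mul_ne_zero (hs _) (pow_ne_zero _ (hf _))) (mul_ne_zero
      (mul_ne_zero (hs _) (pow_ne_zero _ (hf _))) (mul_ne_zero (mul_ne_zero (hs _)
        (pow_ne_zero _ (hf _))) (pow_ne_zero _ (hf _))))
  · have e0 : pm (fA (g := g) (k := k) ζ ξ η θ t a b y) = _ := hrow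
    rw [e0]
    have hsum : dsum (Fin g × Fin h × Fin τ) (Fin m) (PowerSeries K) k =
        ∑ s, ∑ l, ∑ q, es univ k (fun i => y s l i q) := by
      unfold dsum
      rw [Fintype.sum_prod_type]
      refine Finset.sum_congr rfl fun s _ => ?_
      rw [Fintype.sum_prod_type]
    rw [hsum]
    have halg : ∀ x : K, algebraMap K R x = C (PowerSeries.C x) := const_alg
    have htp : ∀ n, t ^ n = C (PowerSeries.X ^ n) := const_X_pow
    simp only [halg, htp, Finset.sum_add_distrib, ← Finset.mul_sum, Finset.sum_const,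
      Finset.card_univ, Fintype.card_fin, nsmul_eq_mul]
    simp only [map_add, map_mul, map_natCast]
    ring

end final

end Pool.Agent.PerSL2
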